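import Pool.Agent.H551Z.QuarticA

/-!
# Functions on the affine Fermat quartic with a pole of order at most one at infinity
-/

set_option autoImplicit false

open Polynomial Pool.Agent.H551Z.Quartic

namespace Pool.Agent.H961Z.KZ

variable (K : Type) [Field K]

/-- the affine coordinate ring -/
abbrev BK : Type := AdjoinRoot (gq K)

/-- the first coordinate -/
noncomputable def xB : BK K := AdjoinRoot.of (gq K) X

/-- the second coordinate -/
noncomputable def yB : BK K := AdjoinRoot.root (gq K)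

lemma xy_rel : 1 + xB K ^ 4 + yB K ^ 4 = 0 := root_rel K

/-- functions of degree at most `N` -/
noncomputable def WN (N : ℕ) : Submodule K (BK K) :=
  Submodule.span K {w | ∃ i j : ℕ, i + j ≤ N ∧ w = xB K ^ i * yB K ^ j}

variable {K}

lemma WN_mono {N M : ℕ} (h : N ≤ M) : WN K N ≤ WN K M :=
  Submodule.span_mono (fun _ ⟨i, j, hij, hw⟩ => ⟨i, j, hij.trans h, hw⟩)

lemma WN_mul {N M : ℕ} {a b : BK K} (ha : a ∈ WN K N) (hb : b ∈ WN K M) :
    a * b ∈ WN K (N + M) := by
  induction ha using Submodule.span_induction with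
  | mem a ha =>
    induction hb using Submodule.span_induction with
    | mem b hb =>
      obtain ⟨i, j, hij, rfl⟩ := ha
      obtain ⟨i', j', hij', rfl⟩ := hb
      exact Submodule.subset_span ⟨i + i', j + j', by omega, by ring⟩
    | zero => rw [mul_zero]; exact zero_mem _
    | add b c _ _ hb hc => rw [mul_add]; exact add_mem hb hc
    | smul r b _ hb => rw [mul_smul_comm]; exact Submodule.smul_mem _ _ hb
  | zero => rw [zero_mul]; exact zero_mem _
  | add a c _ _ ha hc => rw [add_mul]; exact add_mem ha hc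
  | smul r a _ ha => rw [smul_mul_assoc]; exact Submodule.smul_mem _ _ ha

lemma xpow_mem (i : ℕ) : xB K ^ i ∈ WN K i :=
  Submodule.subset_span ⟨i, 0, le_rfl, by simp⟩

lemma y_mem : yB K ∈ WN K 1 := Submodule.subset_span ⟨0, 1, le_rfl, by simp⟩

lemma gq_natDegree : (gq K).natDegree = 4 := by unfold gq; exact natDegree_X_pow_add_C

/-- normal form -/
noncomputable def nf : BK K →ₗ[K[X]] K[X][X] := AdjoinRoot.modByMonicHom (gq_monic K)

lemma nf_small (a j : ℕ) (hj : j < 4) :
    nf (xB K ^ a * yB K ^ j) = C (X ^ a) * X ^ j := by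
  have h : xB K ^ a * yB K ^ j = AdjoinRoot.mk (gq K) (C (X ^ a) * X ^ j) := by
    rw [map_mul, AdjoinRoot.mk_C, map_pow, map_pow, AdjoinRoot.mk_X]
    rfl
  rw [h, nf, AdjoinRoot.modByMonicHom_mk, modByMonic_eq_self_iff (gq_monic K)]
  rw [degree_eq_natDegree (gq_monic K).ne_zero, gq_natDegree]
  refine lt_of_le_of_lt (degree_C_mul_X_pow_le _ _) ?_
  exact_mod_cast hj

lemma nf_mono (j a : ℕ) (i' j' : ℕ) (h : a + j < i' + j') :
    ((nf (xB K ^ a * yB K ^ j)).coeff j').coeff i' = 0 := by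
  induction j using Nat.strong_induction_on generalizing a with
  | _ j ih =>
    by_cases hj : j < 4
    · rw [nf_small a j hj, coeff_C_mul_X_pow]
      split_ifs with h1
      · rw [coeff_X_pow, if_neg (by omega)]
      · simp
    · obtain ⟨l, rfl⟩ : ∃ l, j = l + 4 := ⟨j - 4, by omega⟩
      have h1 : xB K ^ a * yB K ^ (l + 4) =
          -(xB K ^ a * yB K ^ l) - xB K ^ (a + 4) * yB K ^ l := by
        have := xy_rel K
        linear_combination (xB K ^ a * yB K ^ l) * this
      rw [h1, map_sub, map_neg, coeff_sub, coeff_neg, coeff_sub, coeff_neg,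
        ih l (by omega) a (by omega), ih l (by omega) (a + 4) (by omega)]
      simp

lemma nf_WN {N : ℕ} {w : BK K} (hw : w ∈ WN K N) (i j : ℕ) (h : N < i + j) :
    ((nf w).coeff j).coeff i = 0 := by
  induction hw using Submodule.span_induction with
  | mem w hw =>
    obtain ⟨a, b, hab, rfl⟩ := hw
    exact nf_mono b a i j (by omega)
  | zero => simp
  | add a c _ _ ha hc => rw [map_add, coeff_add, coeff_add, ha, hc, add_zero]
  | smul r a _ ha =>
    have h1 : r • a = (C r : K[X]) • a := by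
      rw [Algebra.smul_def, Algebra.smul_def]; rfl
    rw [h1, map_smul, coeff_smul, smul_eq_mul, coeff_C_mul, ha, mul_zero]

lemma linear_of_mul {N : ℕ} {b : BK K} (h : xB K ^ N * b ∈ WN K (N + 1)) :
    ∃ p0 p1 : K[X], b = AdjoinRoot.of (gq K) p0 + AdjoinRoot.of (gq K) p1 * yB K := by
  have h1 : xB K ^ N * b = (X ^ N : K[X]) • b := by
    rw [Algebra.smul_def, map_pow]; rfl
  have h2 : ∀ j, 2 ≤ j → (nf b).coeff j = 0 := by
    intro j hj
    ext i
    have := nf_WN h (i + N) j (by omega)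
    rwa [h1, map_smul, coeff_smul, smul_eq_mul, coeff_X_pow_mul] at this
  refine ⟨(nf b).coeff 0, (nf b).coeff 1, ?_⟩
  have h3 : nf b = C ((nf b).coeff 0) + C ((nf b).coeff 1) * X := by
    ext j : 1
    rcases j with _ | _ | j
    · simp
    · simp
    · rw [h2 (j + 1 + 1) (by omega)]
      simp
  have h4 : AdjoinRoot.mk (gq K) (nf b) = b := AdjoinRoot.mk_leftInverse (gq_monic K) b
  conv_lhs => rw [← h4, h3]
  rw [map_add, map_mul, AdjoinRoot.mk_C, AdjoinRoot.mk_C, AdjoinRoot.mk_X]
  rfl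

lemma of_injective : Function.Injective (AdjoinRoot.of (gq K)) :=
  AdjoinRoot.of.injective_of_degree_ne_zero (by
    rw [degree_eq_natDegree (gq_monic K).ne_zero, gq_natDegree]; norm_num)

/-- evaluation at a point -/
noncomputable def evB (a b : K) (h : 1 + a ^ 4 + b ^ 4 = 0) : BK K →+* K :=
  AdjoinRoot.lift (evalRingHom a) b (by
    unfold gq
    rw [eval₂_add, eval₂_pow, eval₂_X, eval₂_C]
    simp only [coe_evalRingHom, eval_add, eval_one, eval_pow, eval_X]
    linear_combination h)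

lemma evB_of (a b : K) (h : 1 + a ^ 4 + b ^ 4 = 0) (p : K[X]) :
    evB a b h (AdjoinRoot.of (gq K) p) = p.eval a := AdjoinRoot.lift_of _

lemma evB_x (a b : K) (h : 1 + a ^ 4 + b ^ 4 = 0) : evB a b h (xB K) = a := by
  rw [xB, evB_of, eval_X]

lemma evB_y (a b : K) (h : 1 + a ^ 4 + b ^ 4 = 0) : evB a b h (yB K) = b :=
  AdjoinRoot.lift_root _

lemma evB_algebraMap (a b : K) (h : 1 + a ^ 4 + b ^ 4 = 0) (c : K) :
    evB a b h (algebraMap K (BK K) c) = c := by
  have : algebraMap K (BK K) c = AdjoinRoot.of (gq K) (C c) := rfl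
  rw [this, evB_of, eval_C]

/-- elements of the field which become functions of degree at most `N` after multiplication
by the `N`-th power of `x`. -/
noncomputable def InfReg {L : Type} [Field L] (j : BK K →+* L) : Subring L where
  carrier := {z | ∃ N, ∃ w ∈ WN K N, z * j (xB K) ^ N = j w}
  mul_mem' := by
    rintro a b ⟨N, w, hw, h1⟩ ⟨M, v, hv, h2⟩
    exact ⟨N + M, w * v, WN_mul hw hv, by rw [map_mul, ← h1, ← h2]; ring⟩
  one_mem' := ⟨0, 1, by simpa using xpow_mem (K := K) 0, by simp⟩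
  add_mem' := by
    rintro a b ⟨N, w, hw, h1⟩ ⟨M, v, hv, h2⟩
    refine ⟨N + M, w * xB K ^ M + xB K ^ N * v,
      add_mem (WN_mul hw (xpow_mem M)) (WN_mul (xpow_mem N) hv), ?_⟩
    rw [map_add, map_mul, map_mul, map_pow, map_pow, ← h1, ← h2]; ring
  zero_mem' := ⟨0, 0, zero_mem _, by simp⟩
  neg_mem' := by
    rintro a ⟨N, w, hw, h1⟩
    exact ⟨N, -w, neg_mem hw, by rw [map_neg, ← h1]; ring⟩

lemma linear_of_infReg {L : Type} [Field L] (j : BK K →+* L) (hj : Function.Injective j)
    (b : BK K) (z : L) (hz : z ∈ InfReg j) (h : z * j (xB K) = j b) :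
    ∃ p0 p1 : K[X], b = AdjoinRoot.of (gq K) p0 + AdjoinRoot.of (gq K) p1 * yB K := by
  obtain ⟨N, w, hw, h1⟩ := hz
  apply linear_of_mul (N := N)
  have h2 : xB K ^ N * b = w * xB K ^ 1 := by
    apply hj
    rw [map_mul, map_mul, map_pow, map_pow, ← h, ← h1]; ring
  rw [h2]
  exact WN_mul hw (xpow_mem 1)

end Pool.Agent.H961Z.KZ
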