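import Pool.Agent.H961Z.KZ.Dlog

/-!
# A two-open cover of the Fermat quartic and a cocycle of units
-/

set_option autoImplicit false

open MvPolynomial Pool.Agent.Helper198.Sch AlgebraicGeometry CategoryTheory Limits
  TopologicalSpace Opposite
open Pool.Agent.H551Z.Quartic (JF frac_rel chart_mem_D)

namespace Pool.Agent.H961Z.KZ

attribute [local instance] MvPolynomial.gradedAlgebra

variable {R : Type} [CommRing R]

/-- first affine coordinate -/
noncomputable def xc (R : Type) [CommRing R] : Ch (JF R) 0 := frac (JF R) 0 1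

/-- second affine coordinate -/
noncomputable def yc (R : Type) [CommRing R] : Ch (JF R) 0 := frac (JF R) 0 2

/-- coordinate at infinity -/
noncomputable def wc (R : Type) [CommRing R] : Ch (JF R) 1 := frac (JF R) 1 0

lemma xy_c : 1 + xc R ^ 4 + yc R ^ 4 = 0 := frac_rel (R := R) 0

/-- vanishes on the two sections -/
noncomputable def nn (η β : R) : Ch (JF R) 0 :=
  (yc R - algebraMap R _ η) * (yc R - algebraMap R _ β)

/-- the cofactor -/
noncomputable def cof {S : Type} [CommRing S] (a b : S) : S :=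
  a ^ 3 + a ^ 2 * b + a * b ^ 2 + b ^ 3

/-- vanishes on the conjugates of the two sections -/
noncomputable def hh (η β : R) : Ch (JF R) 0 :=
  cof (yc R) (algebraMap R _ η) * cof (yc R) (algebraMap R _ β)

/-- the transition function -/
noncomputable def gg (τ : R) : Ch (JF R) 1 := 1 - algebraMap R _ τ * wc R

/-- locus where the transition function is invertible -/
noncomputable def GO (τ : R) : (V (JF R)).Opens :=
  (V (JF R)).basicOpen ((sec (JF R) 1).hom (gg τ))

/-- first open -/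
noncomputable def U0 (τ η β : R) : (V (JF R)).Opens :=
  GO τ ⊔ (V (JF R)).basicOpen ((sec (JF R) 0).hom (nn η β))

/-- second open -/
noncomputable def U1 (η β : R) : (V (JF R)).Opens :=
  (V (JF R)).basicOpen ((sec (JF R) 0).hom (hh η β))

lemma map_cof {S S' : Type} [CommRing S] [CommRing S'] (f : S →+* S') (a b : S) :
    f (cof a b) = cof (f a) (f b) := by
  simp [cof]

lemma nn_mul_hh {τ η β : R} (hη : η ^ 4 = -1) (hβ : β ^ 4 = -1 - τ ^ 4) :
    nn η β * hh η β = xc R ^ 4 * ((xc R - algebraMap R _ τ) * cof (xc R) (algebraMap R _ τ)) := by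
  have h1 := congrArg (algebraMap R (Ch (JF R) 0)) hη
  have h2 := congrArg (algebraMap R (Ch (JF R) 0)) hβ
  simp only [map_pow, map_neg, map_one, map_sub] at h1 h2
  have h3 := xy_c (R := R)
  have e1 : (yc R - algebraMap R _ η) * cof (yc R) (algebraMap R _ η) = -xc R ^ 4 := by
    unfold cof; linear_combination h3 - h1
  have e2 : (yc R - algebraMap R _ β) * cof (yc R) (algebraMap R _ β) =
      -((xc R - algebraMap R _ τ) * cof (xc R) (algebraMap R _ τ)) := by
    unfold cof; linear_combination h3 - h2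
  calc nn η β * hh η β = ((yc R - algebraMap R _ η) * cof (yc R) (algebraMap R _ η)) *
      ((yc R - algebraMap R _ β) * cof (yc R) (algebraMap R _ β)) := by unfold nn hh; ring
    _ = _ := by rw [e1, e2]; ring

lemma cop {η β : R} (u1 : IsUnit (cof η η)) (u2 : IsUnit (cof η β)) (u3 : IsUnit (cof β β))
    (q : Spec (.of (Ch (JF R) 0))) : nn η β ∉ q.asIdeal ∨ hh η β ∉ q.asIdeal := by
  by_contra hcon
  push Not at hcon
  obtain ⟨h1, h2⟩ := hcon
  have key : ∀ a b : R, IsUnit (cof a b) → yc R - algebraMap R _ a ∈ q.asIdeal →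
      cof (yc R) (algebraMap R _ b) ∈ q.asIdeal → False := by
    intro a b hu ha hb
    have h3 : algebraMap R (Ch (JF R) 0) (cof a b) = cof (yc R) (algebraMap R _ b) -
        (yc R - algebraMap R _ a) * (yc R ^ 2 + yc R * algebraMap R _ a + algebraMap R _ a ^ 2 +
          algebraMap R _ b * (yc R + algebraMap R _ a) + algebraMap R _ b ^ 2) := by
      rw [map_cof]; unfold cof; ring
    have h4 : algebraMap R (Ch (JF R) 0) (cof a b) ∈ q.asIdeal := by
      rw [h3]
      exact sub_mem hb (Ideal.mul_mem_right _ _ ha)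
    exact q.isPrime.ne_top (Ideal.eq_top_of_isUnit_mem _ h4 (hu.map _))
  have u4 : IsUnit (cof β η) := by
    have : cof β η = cof η β := by unfold cof; ring
    rwa [this]
  rcases q.isPrime.mem_or_mem h1 with h1 | h1 <;> rcases q.isPrime.mem_or_mem h2 with h2 | h2
  · exact key _ _ u1 h1 h2
  · exact key _ _ u2 h1 h2
  · exact key _ _ u4 h1 h2
  · exact key _ _ u3 h1 h2

lemma mem_GO_of_not_mem (τ : R) (z : V (JF R)) (hz : z ∉ V.D (JF R) 0) : z ∈ GO τ := by
  have h1 : z ∈ V.D (JF R) 1 := by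
    obtain ⟨c, hc⟩ := V.exists_mem_D (JF R) z
    fin_cases c
    · exact absurd hc hz
    · exact hc
    · obtain ⟨q, rfl⟩ := (V.mem_range_chart (JF R) 2 _).2 hc
      rw [chart_mem_D] at hz ⊢
      push Not at hz
      intro h2
      have h3 : 1 + frac (JF R) 2 0 ^ 4 + frac (JF R) 2 1 ^ 4 = 0 := frac_rel (R := R) 2
      apply q.isPrime.ne_top
      rw [Ideal.eq_top_iff_one]
      have h4 : (1 : Ch (JF R) 2) = -(frac (JF R) 2 0 ^ 3) * frac (JF R) 2 0 -
          frac (JF R) 2 1 ^ 3 * frac (JF R) 2 1 := by linear_combination h3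
      rw [h4]
      exact sub_mem (Ideal.mul_mem_left _ _ hz) (Ideal.mul_mem_left _ _ h2)
  obtain ⟨q, rfl⟩ := (V.mem_range_chart (JF R) 1 _).2 h1
  rw [chart_mem_D] at hz
  push Not at hz
  unfold GO
  rw [chart_mem_basicOpen]
  intro h2
  apply q.isPrime.ne_top
  rw [Ideal.eq_top_iff_one]
  have h4 : (1 : Ch (JF R) 1) = gg τ + algebraMap R _ τ * frac (JF R) 1 0 := by
    unfold gg wc; ring
  rw [h4]
  exact add_mem h2 (Ideal.mul_mem_left _ _ hz)

lemma cover (τ : R) {η β : R} (u1 : IsUnit (cof η η)) (u2 : IsUnit (cof η β))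
    (u3 : IsUnit (cof β β)) : U0 τ η β ⊔ U1 η β = ⊤ := by
  rw [eq_top_iff]
  intro z _
  by_cases hz : z ∈ V.D (JF R) 0
  · obtain ⟨q, rfl⟩ := (V.mem_range_chart (JF R) 0 _).2 hz
    rcases cop u1 u2 u3 q with h | h
    · exact Or.inl (Or.inr ((chart_mem_basicOpen _ _ _ _).2 h))
    · exact Or.inr ((chart_mem_basicOpen _ _ _ _).2 h)
  · exact Or.inl (Or.inl (mem_GO_of_not_mem τ z hz))

lemma mem_GO (τ : R) (q : Spec (.of (Ch (JF R) 0))) (h1 : xc R ∉ q.asIdeal)
    (h2 : xc R - algebraMap R _ τ ∉ q.asIdeal) : V.chart (JF R) 0 q ∈ GO τ := by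
  have hz1 : V.chart (JF R) 0 q ∈ V.D (JF R) 1 := (chart_mem_D _ _ _ _).2 h1
  have hz0 := chart_mem (JF R) 0 q
  unfold GO
  rw [← isUnit_gm_iff _ _ _ hz1]
  have h3 := (isUnit_gm_chart _ _ q _).2 h2
  have h4 := gm_trans (JF R) 0 1 _ hz0 hz1 0
  rw [frac_self, map_one] at h4
  have h5 := gm_algebraMap (JF R) 0 1 _ hz0 hz1 τ
  have h6 : gm (JF R) 0 _ hz0 (xc R - algebraMap R _ τ) =
      gm (JF R) 0 _ hz0 (xc R) * gm (JF R) 1 _ hz1 (gg τ) := by
    unfold gg xc wc
    rw [map_sub, map_sub, map_mul, map_one, h5]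
    linear_combination (gm (JF R) 1 _ hz1 (algebraMap R _ τ)) * (-h4)
  rw [h6] at h3
  exact isUnit_of_mul_isUnit_right h3

lemma inter_le {τ η β : R} (hη : η ^ 4 = -1) (hβ : β ^ 4 = -1 - τ ^ 4) :
    U0 τ η β ⊓ U1 η β ≤ GO τ := by
  rintro z ⟨h0 | h0, h1⟩
  · exact h0
  · have hz : z ∈ V.D (JF R) 0 := (V (JF R)).basicOpen_le _ h1
    obtain ⟨q, rfl⟩ := (V.mem_range_chart (JF R) 0 _).2 hz
    have h2 := (chart_mem_basicOpen _ _ _ _).1 h0
    have h3 := (chart_mem_basicOpen _ _ _ _).1 h1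
    have h4 : nn η β * hh η β ∉ q.asIdeal := fun h => (q.isPrime.mem_or_mem h).elim h2 h3
    rw [nn_mul_hh hη hβ] at h4
    apply mem_GO
    · intro h
      apply h4
      apply Ideal.mul_mem_right
      exact Ideal.pow_mem_of_mem _ h 4 (by norm_num)
    · intro h
      exact h4 (Ideal.mul_mem_left _ _ (Ideal.mul_mem_right _ _ h))

lemma GO_le (τ : R) : GO τ ≤ V.D (JF R) 1 := (V (JF R)).basicOpen_le _

lemma exists_unit (τ : R) (W : (V (JF R)).Opens) (hW : W ≤ GO τ) :
    ∃ u : (Γ(V (JF R), W))ˣ, (u : Γ(V (JF R), W)) =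
      (V (JF R)).presheaf.map (homOfLE (hW.trans (GO_le τ))).op ((sec (JF R) 1).hom (gg τ)) := by
  have h := RingedSpace.isUnit_res_basicOpen (V (JF R)).toRingedSpace ((sec (JF R) 1).hom (gg τ))
  obtain ⟨u, hu⟩ := h.map ((V (JF R)).presheaf.map (homOfLE hW).op).hom
  refine ⟨u, hu.trans ?_⟩
  exact (ConcreteCategory.congr_hom ((V (JF R)).presheaf.map_comp
    (homOfLE (GO_le τ)).op (homOfLE hW).op) _).symm

lemma res_unit_eq_one (π : R) (m : ℕ) (W : (V (JF R)).Opens) (hW : W ≤ GO (π ^ m))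
    (u : (Γ(V (JF R), W))ˣ) (hu : (u : Γ(V (JF R), W)) =
      (V (JF R)).presheaf.map (homOfLE (hW.trans (GO_le _))).op
        ((sec (JF R) 1).hom (gg (π ^ m)))) :
    (resUnits (thickι (V.str (JF R)) π m)).hom.app (op W) (Additive.ofMul u) = 0 := by
  have h0 : ((thickι (V.str (JF R)) π m).app W).hom
      ((V (JF R)).presheaf.map (homOfLE (hW.trans (GO_le _))).op
        ((sec (JF R) 1).hom (algebraMap R _ (π ^ m)))) = 0 := by
    rw [sec_algebraMap]
    have h1 : (V.str (JF R)).appTop ≫ (V (JF R)).presheaf.map (homOfLE le_top).op ≫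
        (V (JF R)).presheaf.map (homOfLE (hW.trans (GO_le _))).op ≫
        (thickι (V.str (JF R)) π m).app W =
        (thickι (V.str (JF R)) π m ≫ V.str (JF R)).appTop ≫
          (pullback (V.str (JF R)) (Spec.map (CommRingCat.ofHom
            (Ideal.Quotient.mk (Ideal.span {π ^ m}))))).presheaf.map (homOfLE le_top).op := by
      rw [Scheme.Hom.comp_appTop, Category.assoc]
      congr 1
      rw [← Category.assoc, ← Functor.map_comp, Scheme.Hom.naturality]
      rfl
    have h2 := congrArg (fun g => g.hom ((Scheme.ΓSpecIso (.of R)).inv (π ^ m))) h1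
    refine Eq.trans h2 ?_
    have h3 : thickι (V.str (JF R)) π m ≫ V.str (JF R) = pullback.snd _ _ ≫ Spec.map
      (CommRingCat.ofHom (Ideal.Quotient.mk (Ideal.span {π ^ m}))) := pullback.condition
    rw [h3, Scheme.Hom.comp_appTop]
    have h4 := congrArg (fun g => g.hom (π ^ m)) (Scheme.ΓSpecIso_inv_naturality
      (CommRingCat.ofHom (Ideal.Quotient.mk (Ideal.span {π ^ m}))))
    have h5 : Ideal.Quotient.mk (Ideal.span {π ^ m}) (π ^ m) = 0 :=
      Ideal.Quotient.eq_zero_iff_mem.2 (Ideal.subset_span rfl)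
    simp only [CommRingCat.hom_comp, RingHom.comp_apply, CommRingCat.hom_ofHom, h5,
      map_zero] at h4
    simp only [CommRingCat.hom_comp, RingHom.comp_apply]
    erw [← h4]
    simp
  apply Units.ext
  change ((thickι (V.str (JF R)) π m).app W).hom (u : Γ(V (JF R), W)) = 1
  rw [hu]
  unfold gg
  rw [map_sub, map_mul, map_one, map_sub, map_mul, map_one, map_sub, map_mul, map_one, h0,
    zero_mul, sub_zero]

end Pool.Agent.H961Z.KZ
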