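import Mathlib

/-!
# First cohomology of the sheaf of units, thickenings of the special fibre, Kerz filtrations
-/

set_option autoImplicit false

open CategoryTheory AlgebraicGeometry TopologicalSpace Limits TensorProduct

namespace Pool.Agent.H961Z.KZ

attribute [local instance] MvPolynomial.gradedAlgebra

/-- The functor sending a commutative ring to its group of units (written additively). -/
noncomputable def unitsFunctor : CommRingCat.{0} ⥤ AddCommGrpCat.{0} :=
  forget₂ CommRingCat CommMonCat ⋙ CommMonCat.units ⋙ CommGrpCat.toAddCommGrp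

instance : unitsFunctor.IsRightAdjoint := by
  have : CommGrpCat.toAddCommGrp.{0}.IsEquivalence :=
    commGroupAddCommGroupEquivalence.isEquivalence_functor
  unfold unitsFunctor
  infer_instance

/-- Zariski sheaves of abelian groups on the scheme `X`. -/
abbrev AbSheaf (X : Scheme.{0}) : Type 1 :=
  Sheaf (Opens.grothendieckTopology X) AddCommGrpCat.{0}

/-- The sheaf of units of a sheaf of commutative rings on `X`. -/
noncomputable def unitsOf {X : Scheme.{0}} (O : TopCat.Sheaf CommRingCat.{0} X) : AbSheaf X :=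
  ⟨O.obj ⋙ unitsFunctor, Presheaf.isSheaf_comp_of_isSheaf _ _ unitsFunctor O.property⟩

/-- The sheaf `𝒪_X^×` of units of the structure sheaf; it is the first Milnor K-sheaf. -/
noncomputable def unitsSheaf (X : Scheme.{0}) : AbSheaf X := unitsOf X.sheaf

/-- The direct image `i_* 𝒪_Y^×` on `X` of the sheaf of units of `Y` along `i : Y ⟶ X`. -/
noncomputable def pushUnits {X Y : Scheme.{0}} (i : Y ⟶ X) : AbSheaf X :=
  unitsOf ((TopCat.Sheaf.pushforward CommRingCat.{0} i.base).obj Y.sheaf)

/-- The restriction `𝒪_X^× ⟶ i_* 𝒪_Y^×` of units along `i : Y ⟶ X`. -/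
noncomputable def resUnits {X Y : Scheme.{0}} (i : Y ⟶ X) : unitsSheaf X ⟶ pushUnits i :=
  ⟨Functor.whiskerRight i.c unitsFunctor⟩

/-- The first Zariski cohomology group (derived functor cohomology) of an abelian sheaf. -/
abbrev H1 {X : Scheme.{0}} (F : AbSheaf X) : Type := Sheaf.H F 1

/-- The closed immersion `X_n = X ×_A A/(π^n) ⟶ X`. -/
noncomputable def thickι {A : Type} [CommRing A] {X : Scheme.{0}} (s : X ⟶ Spec (.of A)) (π : A)
    (n : ℕ) :
    pullback s (Spec.map (CommRingCat.ofHom (Ideal.Quotient.mk (Ideal.span {π ^ n})))) ⟶ X :=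
  pullback.fst _ _

/-- The restriction map `H¹(X, 𝒪_X^×) → H¹(X, i_* 𝒪_{X_n}^×) = H¹(X_1, 𝒪_{X_n}^×)`. -/
noncomputable def res {A : Type} [CommRing A] {X : Scheme.{0}} (s : X ⟶ Spec (.of A)) (π : A)
    (n : ℕ) : H1 (unitsSheaf X) →+ H1 (pushUnits (thickι s π n)) :=
  Sheaf.H.map (resUnits (thickι s π n)) 1

/-- Projective `N`-space over the ring `A`. -/
noncomputable def PSpace (N : ℕ) (A : Type) [CommRing A] : Scheme.{0} :=
  Proj (MvPolynomial.homogeneousSubmodule (Fin (N + 1)) A)

/-- The structure morphism of projective space. -/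
noncomputable def PSpace.str (N : ℕ) (A : Type) [CommRing A] : PSpace N A ⟶ Spec (.of A) :=
  Proj.toSpecZero (MvPolynomial.homogeneousSubmodule (Fin (N + 1)) A) ≫
    Spec.map (CommRingCat.ofHom
      (algebraMap A (MvPolynomial.homogeneousSubmodule (Fin (N + 1)) A 0)))

/-- `X` is projective over `A`: a closed subscheme of a projective space over `A`. -/
def IsProjective {A : Type} [CommRing A] {X : Scheme.{0}} (s : X ⟶ Spec (.of A)) : Prop :=
  ∃ (N : ℕ) (i : X ⟶ PSpace N A), IsClosedImmersion i ∧ i ≫ PSpace.str N A = s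

/-- A filtration `F_1 ⊇ F_2 ⊇ ⋯` of the group `CH` as in the conjecture, for maps
`ρ n : CH → H n` and the prime `p`: (i) `ρ n` vanishes on `F n` and the induced map
`CH / F n → H n` has an inverse; (ii) the pro-system `F n ⊗ ℤ/p^r` is zero for all `r ≥ 1`. -/
structure IsKerzFiltration (p : ℕ) {CH : Type} [AddCommGroup CH] {H : ℕ → Type}
    [∀ n, AddCommGroup (H n)] (ρ : ∀ n, CH →+ H n) (F : ℕ → AddSubgroup CH) : Prop where
  decreasing : ∀ n, 1 ≤ n → F (n + 1) ≤ F n
  inverse : ∀ n, 1 ≤ n → ∃ h : F n ≤ (ρ n).ker, ∃ σ : H n → CH ⧸ F n,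
    Function.LeftInverse σ (QuotientAddGroup.lift (F n) (ρ n) h) ∧
      Function.RightInverse σ (QuotientAddGroup.lift (F n) (ρ n) h)
  proZero : ∀ r, 1 ≤ r → ∀ n, 1 ≤ n → ∃ m, n ≤ m ∧ ∃ h : F m ≤ F n,
    LinearMap.rTensor (ZMod (p ^ r)) (AddSubgroup.inclusion h).toIntLinearMap = 0

end Pool.Agent.H961Z.KZ
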