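import Pool.Agent.H961Z.KZ.Defs

/-!
# Cohomology classes from two-open covers
-/

set_option autoImplicit false

open CategoryTheory AlgebraicGeometry TopologicalSpace Limits Opposite Abelian

namespace Pool.Agent.H961Z.KZ

variable {X : Scheme.{0}}

/-- the free abelian presheaf on an open -/
noncomputable abbrev ZP (U : Opens X) : (Opens X)ᵒᵖ ⥤ AddCommGrpCat.{0} :=
  yoneda.obj U ⋙ AddCommGrpCat.free

/-- the free abelian sheaf on an open -/
noncomputable abbrev ZS (U : Opens X) : AbSheaf X :=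
  (presheafToSheaf (Opens.grothendieckTopology X) AddCommGrpCat.{0}).obj (ZP U)

/-- the generator -/
noncomputable def zgen (U : Opens X) : (ZP U).obj (op U) := FreeAbelianGroup.of (𝟙 U)

/-- the section attached to a map from the free sheaf -/
noncomputable def secOf {U : Opens X} {F : AbSheaf X} (f : ZS U ⟶ F) : F.obj.obj (op U) :=
  f.hom.app (op U) ((toSheafify (Opens.grothendieckTopology X) (ZP U)).app (op U) (zgen U))

/-- the equivalence -/
noncomputable def secEquiv (U : Opens X) (F : AbSheaf X) : (ZS U ⟶ F) ≃ F.obj.obj (op U) :=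
  ((sheafificationAdjunction (Opens.grothendieckTopology X) AddCommGrpCat.{0}).homEquiv _ _).trans
    (((AddCommGrpCat.adj.whiskerRight (Opens X)ᵒᵖ).homEquiv _ _).trans yonedaEquiv)

lemma secEquiv_apply {U : Opens X} {F : AbSheaf X} (f : ZS U ⟶ F) :
    secEquiv U F f = secOf f := rfl

lemma secOf_bijective (U : Opens X) (F : AbSheaf X) :
    Function.Bijective (secOf : (ZS U ⟶ F) → _) := (secEquiv U F).bijective

lemma secOf_comp {U : Opens X} {F G : AbSheaf X} (f : ZS U ⟶ F) (φ : F ⟶ G) :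
    secOf (f ≫ φ) = φ.hom.app (op U) (secOf f) := rfl

lemma secOf_zero {U : Opens X} {F : AbSheaf X} : secOf (0 : ZS U ⟶ F) = 0 := rfl

lemma secOf_sub {U : Opens X} {F : AbSheaf X} (f g : ZS U ⟶ F) :
    secOf (f - g) = secOf f - secOf g := rfl

lemma secOf_res {U W : Opens X} (i : W ⟶ U) {F : AbSheaf X} (f : ZS U ⟶ F) :
    secOf ((presheafToSheaf (Opens.grothendieckTopology X) AddCommGrpCat.{0}).map
      (Functor.whiskerRight (yoneda.map i) AddCommGrpCat.free) ≫ f) =
      F.obj.map i.op (secOf f) := by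
  have h1 := (toSheafify_naturality (Opens.grothendieckTopology X)
    (Functor.whiskerRight (yoneda.map i) AddCommGrpCat.free : ZP W ⟶ ZP U))
  have h2 := ConcreteCategory.congr_hom (NatTrans.congr_app h1 (op W)) (zgen W)
  have h3 := ConcreteCategory.congr_hom
    ((toSheafify (Opens.grothendieckTopology X) (ZP U) ≫ f.hom).naturality i.op) (zgen U)
  have h4 : (ZP U).map i.op (zgen U) =
      (Functor.whiskerRight (yoneda.map i) AddCommGrpCat.free : ZP W ⟶ ZP U).app (op W)
        (zgen W) := rfl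
  change f.hom.app (op W) ((toSheafify (Opens.grothendieckTopology X) (ZP W) ≫
    sheafifyMap (Opens.grothendieckTopology X)
      (Functor.whiskerRight (yoneda.map i) AddCommGrpCat.free : ZP W ⟶ ZP U)).app (op W)
        (zgen W)) = _
  rw [← h2]
  refine Eq.trans ?_ h3
  change _ = f.hom.app (op W) ((toSheafify (Opens.grothendieckTopology X) (ZP U)).app (op W)
    ((ZP U).map i.op (zgen U)))
  rw [h4]
  rfl

/-- the constant presheaf is the free presheaf on the whole space -/
noncomputable def constIso (T : Opens X) (hT : T = ⊤) :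
    (Functor.const (Opens X)ᵒᵖ).obj (AddCommGrpCat.of (ULift.{0} ℤ)) ≅ ZP T :=
  NatIso.ofComponents (fun U =>
    haveI : Unique (U.unop ⟶ T) := ⟨⟨homOfLE (by rw [hT]; exact le_top)⟩,
      fun _ => Subsingleton.elim _ _⟩
    AddEquiv.toAddCommGrpIso
      (AddEquiv.ulift.trans (FreeAbelianGroup.uniqueEquiv (U.unop ⟶ T)).symm)) (by
    intro U V f
    ext x
    obtain ⟨x⟩ := x
    change (x • FreeAbelianGroup.of _ : FreeAbelianGroup (V.unop ⟶ T)) =
      (ZP T).map f (x • FreeAbelianGroup.of _ : FreeAbelianGroup (U.unop ⟶ T))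
    exact (map_zsmul ((ZP T).map f).hom x (FreeAbelianGroup.of _)).symm)

theorem exists_class (U V : Opens X) (hUV : U ⊔ V = ⊤) (F : AbSheaf X)
    (g : F.obj.obj (op (U ⊓ V))) :
    ∃ c : H1 F, ∀ (G : AbSheaf X) (φ : F ⟶ G),
      (φ.hom.app _ g = 0 → Sheaf.H.map φ 1 c = 0) ∧
      (Sheaf.H.map φ 1 c = 0 → ∃ (a : G.obj.obj (op U)) (b : G.obj.obj (op V)),
        φ.hom.app _ g = G.obj.map (homOfLE inf_le_left).op a -
          G.obj.map (homOfLE inf_le_right).op b) := by
  let S := Opens.mayerVietorisSquare U V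
  let e : (constantSheaf (Opens.grothendieckTopology X) AddCommGrpCat.{0}).obj
      (AddCommGrpCat.of (ULift.{0} ℤ)) ≅ S.shortComplex.X₃ :=
    (presheafToSheaf (Opens.grothendieckTopology X) AddCommGrpCat.{0}).mapIso
      (constIso (U ⊔ V) hUV)
  obtain ⟨f, hf⟩ := (secOf_bijective (U ⊓ V) F).2 g
  let f' : S.shortComplex.X₁ ⟶ F := f
  refine ⟨(Ext.mk₀ e.hom).comp (S.shortComplex_shortExact.extClass.comp (Ext.mk₀ f') (add_zero 1))
    (zero_add 1), fun G φ => ?_⟩
  have key : Sheaf.H.map φ 1 ((Ext.mk₀ e.hom).comp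
      (S.shortComplex_shortExact.extClass.comp (Ext.mk₀ f') (add_zero 1)) (zero_add 1)) =
      (Ext.mk₀ e.hom).comp
      (S.shortComplex_shortExact.extClass.comp (Ext.mk₀ (f' ≫ φ)) (add_zero 1)) (zero_add 1) := by
    rw [Sheaf.H.map_apply, Ext.comp_assoc_of_third_deg_zero, Ext.comp_assoc_of_third_deg_zero,
      Ext.mk₀_comp_mk₀]
  rw [key]
  constructor
  · intro h
    have h0 : f' ≫ φ = 0 := by
      apply (secOf_bijective (U ⊓ V) G).1
      change secOf (f ≫ φ) = _
      rw [secOf_comp, hf, h]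
      rfl
    rw [h0]
    simp
  · intro h
    have h1 : S.shortComplex_shortExact.extClass.comp (Ext.mk₀ (f' ≫ φ)) (add_zero 1) = 0 := by
      have := congrArg (fun z => (Ext.mk₀ e.inv).comp z (zero_add 1)) h
      simpa only [Ext.mk₀_comp_mk₀_assoc, Iso.inv_hom_id, Ext.mk₀_id_comp, Ext.comp_zero] using this
    obtain ⟨x₂, hx₂⟩ := Ext.contravariant_sequence_exact₁ S.shortComplex_shortExact G
      (Ext.mk₀ (f' ≫ φ)) (n₁ := 1) rfl h1
    obtain ⟨y, rfl⟩ := (Ext.mk₀_bijective _ _).2 x₂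
    rw [Ext.mk₀_comp_mk₀] at hx₂
    have h2 : S.shortComplex.f ≫ y = f' ≫ φ := (Ext.mk₀_bijective _ _).1 hx₂
    let y' : ZS U ⊞ ZS V ⟶ G := y
    let iU : ZS (U ⊓ V) ⟶ ZS U :=
      (presheafToSheaf (Opens.grothendieckTopology X) AddCommGrpCat.{0}).map
        (Functor.whiskerRight (yoneda.map (homOfLE inf_le_left)) AddCommGrpCat.free)
    let iV : ZS (U ⊓ V) ⟶ ZS V :=
      (presheafToSheaf (Opens.grothendieckTopology X) AddCommGrpCat.{0}).map
        (Functor.whiskerRight (yoneda.map (homOfLE inf_le_right)) AddCommGrpCat.free)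
    have h2' : biprod.lift iU (-iV) ≫ y' = f ≫ φ := h2
    let a : ZS U ⟶ G := biprod.inl ≫ y'
    let b : ZS V ⟶ G := biprod.inr ≫ y'
    have h3 : y' = biprod.desc a b := by
      apply biprod.hom_ext'
      · rw [biprod.inl_desc]
      · rw [biprod.inr_desc]
    rw [h3, biprod.lift_desc, Preadditive.neg_comp, ← sub_eq_add_neg] at h2'
    refine ⟨secOf a, secOf b, ?_⟩
    rw [← secOf_res, ← secOf_res, ← secOf_sub, ← hf, ← secOf_comp, ← h2']

end Pool.Agent.H961Z.KZ
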