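import Pool.Agent.H961Z.KZ.Gen
import Pool.Agent.H961Z.KZ.MV

/-!
# The logarithmic derivative as a map of sheaves
-/

set_option autoImplicit false

open MvPolynomial Pool.Agent.Helper198.Sch AlgebraicGeometry CategoryTheory Limits
  TopologicalSpace Opposite

namespace Pool.Agent.H961Z.KZ

attribute [local instance] MvPolynomial.gradedAlgebra

/-- the data of a tangent vector at a generic point -/
structure Dat {σ R : Type} [CommRing R] (J : HI σ R) (L : Type) [Field L]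
    [Algebra R (DualNumber L)] where
  c0 : σ
  φ : Ch J c0 →ₐ[R] DualNumber L
  fst_ne : ∀ c, (φ (frac J c0 c)).fst ≠ 0
  snd_eq : ∀ c, (φ (frac J c0 c)).snd = 0
  der : ∀ r : R, ∃ r' : R, (algebraMap R (DualNumber L) r).snd =
    (algebraMap R (DualNumber L) r').fst

namespace Dat

variable {σ R : Type} [CommRing R] {J : HI σ R} {L : Type} [Field L]
  [Algebra R (DualNumber L)] (d : Dat J L)

/-- the base point -/
noncomputable def x0 : V J := cpt J d.c0 d.φ

lemma x0_mem (c : σ) : d.x0 ∈ V.D J c :=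
  Pool.Agent.H551Z.Quartic.ptOf_mem J d.c0 d.φ _ c
    (TrivSqZeroExt.isUnit_iff_isUnit_fst.2 (IsUnit.mk0 _ (d.fst_ne c)))

/-- evaluation of germs -/
noncomputable def ev : St J d.x0 →+* DualNumber L := evR J d.c0 d.φ

/-- evaluation of chart functions -/
noncomputable def e (c : σ) : Ch J c →+* DualNumber L := d.ev.comp (gm J c d.x0 (d.x0_mem c))

/-- value of chart functions -/
noncomputable def ι (c : σ) : Ch J c →+* L :=
  (TrivSqZeroExt.fstHom L L L).toRingHom.comp (d.e c)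

lemma ι_apply (c : σ) (r : Ch J c) : d.ι c r = (d.e c r).fst := rfl

lemma e_c0 (r : Ch J d.c0) : d.e d.c0 r = d.φ r := evR_gm J d.c0 d.φ r

lemma e_algebraMap (c : σ) (r : R) :
    d.e c (algebraMap R _ r) = algebraMap R (DualNumber L) r := by
  have h := gm_algebraMap J c d.c0 d.x0 (d.x0_mem c) (d.x0_mem d.c0) r
  change d.ev (gm J c d.x0 (d.x0_mem c) _) = _
  rw [h]
  exact (d.e_c0 _).trans (d.φ.commutes r)

lemma e_frac (c a : σ) : d.φ (frac J d.c0 a) = d.φ (frac J d.c0 c) * d.e c (frac J c a) := by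
  have h := congrArg d.ev (gm_trans J d.c0 c d.x0 (d.x0_mem d.c0) (d.x0_mem c) a)
  rw [map_mul] at h
  rw [← d.e_c0, ← d.e_c0]
  exact h

lemma e_frac_snd (c a : σ) : (d.e c (frac J c a)).snd = 0 := by
  have h := congrArg TrivSqZeroExt.snd (d.e_frac c a)
  rw [DualNumber.snd_mul, d.snd_eq, d.snd_eq, zero_mul, add_zero] at h
  exact (mul_eq_zero.1 h.symm).resolve_left (d.fst_ne c)

lemma ι_frac (c a : σ) :
    (d.φ (frac J d.c0 a)).fst = (d.φ (frac J d.c0 c)).fst * d.ι c (frac J c a) := by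
  rw [d.e_frac c a, TrivSqZeroExt.fst_mul]
  rfl

lemma e_snd (c : σ) (r : Ch J c) : ∃ r', (d.e c r).snd = d.ι c r' := by
  obtain ⟨F, rfl⟩ := aeval_frac_surjective J c r
  induction F using MvPolynomial.induction_on with
  | C a =>
    obtain ⟨a', ha⟩ := d.der a
    refine ⟨algebraMap R _ a', ?_⟩
    rw [aeval_C, e_algebraMap, ι_apply, e_algebraMap, ha]
  | add p q hp hq =>
    obtain ⟨p', hp⟩ := hp
    obtain ⟨q', hq⟩ := hq
    refine ⟨p' + q', ?_⟩
    rw [map_add, map_add, TrivSqZeroExt.snd_add, hp, hq, map_add]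
  | mul_X p a hp =>
    obtain ⟨p', hp⟩ := hp
    refine ⟨p' * frac J c a, ?_⟩
    rw [map_mul, map_mul, aeval_X, DualNumber.snd_mul, e_frac_snd, hp, mul_zero, zero_add,
      map_mul]
    rfl

lemma x0_specializes (c : σ) (q : Spec (.of (Ch J c))) (h : RingHom.ker (d.ι c) ≤ q.asIdeal) :
    d.x0 ⤳ V.chart J c q := by
  obtain ⟨q0, hq0⟩ := (V.mem_range_chart J c _).2 (d.x0_mem c)
  have h1 : q0.asIdeal ≤ q.asIdeal := by
    refine le_trans ?_ h
    intro f hf
    rw [RingHom.mem_ker]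
    by_contra hne
    have h2 : IsUnit (d.e c f) := TrivSqZeroExt.isUnit_iff_isUnit_fst.2 (IsUnit.mk0 _ hne)
    have h3 : IsUnit (gm J c d.x0 (d.x0_mem c) f) := (evR_isUnit J d.c0 d.φ _).1 h2
    rw [isUnit_gm_iff, ← hq0, chart_mem_basicOpen] at h3
    exact h3 hf
  rw [← hq0]
  exact ((PrimeSpectrum.le_iff_specializes q0 q).1 h1).map (V.chart J c).continuous

/-- the elements of `L` which are regular at `y` -/
def Reg (y : V J) : Subring L where
  carrier := {z | ∀ (_ : d.x0 ⤳ y) (c : σ) (q : Spec (.of (Ch J c))), V.chart J c q = y →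
    ∃ r f : Ch J c, f ∉ q.asIdeal ∧ z * d.ι c f = d.ι c r}
  mul_mem' := by
    intro a b ha hb h c q hq
    obtain ⟨r, f, hf, h1⟩ := ha h c q hq
    obtain ⟨r', f', hf', h2⟩ := hb h c q hq
    refine ⟨r * r', f * f', fun hh => (q.isPrime.mem_or_mem hh).elim hf hf', ?_⟩
    rw [map_mul, map_mul, ← h1, ← h2]; ring
  one_mem' := by
    intro h c q hq
    exact ⟨1, 1, fun hh => q.isPrime.ne_top ((Ideal.eq_top_iff_one _).2 hh), one_mul _⟩
  add_mem' := by
    intro a b ha hb h c q hq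
    obtain ⟨r, f, hf, h1⟩ := ha h c q hq
    obtain ⟨r', f', hf', h2⟩ := hb h c q hq
    refine ⟨r * f' + r' * f, f * f', fun hh => (q.isPrime.mem_or_mem hh).elim hf hf', ?_⟩
    rw [map_add, map_mul, map_mul, map_mul, ← h1, ← h2]; ring
  zero_mem' := by
    intro h c q hq
    exact ⟨0, 1, fun hh => q.isPrime.ne_top ((Ideal.eq_top_iff_one _).2 hh), by simp⟩
  neg_mem' := by
    intro a ha h c q hq
    obtain ⟨r, f, hf, h1⟩ := ha h c q hq
    exact ⟨-r, f, hf, by rw [map_neg, ← h1]; ring⟩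

/-- value and derivative of a section -/
noncomputable def es (U : (V J).Opens) (h : d.x0 ∈ U) : Γ(V J, U) →+* DualNumber L :=
  d.ev.comp (germ J U d.x0 h)

lemma es_res {U W : (V J).Opens} (i : W ≤ U) (h : d.x0 ∈ W) (s : Γ(V J, U)) :
    d.es W h ((V J).presheaf.map (homOfLE i).op s) = d.es U (i h) s :=
  congrArg d.ev (germ_res J i d.x0 h s)

lemma es_sec (c : σ) (r : Ch J c) : d.es (V.D J c) (d.x0_mem c) ((sec J c).hom r) = d.e c r := rfl

lemma es_reg (U : (V J).Opens) (h : d.x0 ∈ U) (s : Γ(V J, U)) (y : V J) (hy : y ∈ U) :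
    (d.es U h s).fst ∈ d.Reg y ∧ (d.es U h s).snd ∈ d.Reg y := by
  have key : ∀ (_ : d.x0 ⤳ y) (c : σ) (q : Spec (.of (Ch J c))), V.chart J c q = y →
      ∃ r f : Ch J c, f ∉ q.asIdeal ∧ d.es U h s * d.e c f = d.e c r := by
    rintro hs c q rfl
    obtain ⟨r, f, hf, h1⟩ := exists_frac J c q (germ J U _ hy s)
    refine ⟨r, f, hf, ?_⟩
    have h2 := congrArg (spec J hs) h1
    rw [map_mul, spec_germ J hs U hy h] at h2
    have h3 : ∀ g, spec J hs (gm J c _ (chart_mem J c q) g) = gm J c d.x0 (d.x0_mem c) g :=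
      fun g => spec_germ J hs _ _ _ _
    rw [h3, h3] at h2
    have h4 := congrArg d.ev h2
    rw [map_mul] at h4
    exact h4
  constructor
  · intro hs c q hq
    obtain ⟨r, f, hf, h1⟩ := key hs c q hq
    refine ⟨r, f, hf, ?_⟩
    have h2 := congrArg TrivSqZeroExt.fst h1
    rw [TrivSqZeroExt.fst_mul] at h2
    exact h2
  · intro hs c q hq
    obtain ⟨r, f, hf, h1⟩ := key hs c q hq
    obtain ⟨r', hr'⟩ := d.e_snd c r
    obtain ⟨f', hf'⟩ := d.e_snd c f
    refine ⟨r' * f - r * f', f * f, fun hh => (q.isPrime.mem_or_mem hh).elim hf hf, ?_⟩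
    have h2 := congrArg TrivSqZeroExt.fst h1
    rw [TrivSqZeroExt.fst_mul, ← ι_apply, ← ι_apply] at h2
    have h3 := congrArg TrivSqZeroExt.snd h1
    rw [DualNumber.snd_mul, hr', hf', ← ι_apply] at h3
    rw [map_sub, map_mul, map_mul, map_mul, ← h2, ← h3]
    ring

/-- sections of the target sheaf -/
def TS (U : Opens (V J)) : AddSubgroup (PLift (d.x0 ∈ U) → L) where
  carrier := {z | ∀ h y, y ∈ U → z h ∈ d.Reg y}
  add_mem' := fun ha hb h y hy => add_mem (ha h y hy) (hb h y hy)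
  zero_mem' := fun _ _ _ => zero_mem _
  neg_mem' := fun ha h y hy => neg_mem (ha h y hy)

/-- restriction -/
def TSres {U W : Opens (V J)} (i : W ≤ U) : d.TS U →+ d.TS W where
  toFun z := ⟨fun h => z.1 ⟨i h.down⟩, fun _ y hy => z.2 _ y (i hy)⟩
  map_zero' := rfl
  map_add' _ _ := rfl

/-- the target presheaf -/
def TP : TopCat.Presheaf AddCommGrpCat.{0} (V J) where
  obj U := AddCommGrpCat.of (d.TS U.unop)
  map f := AddCommGrpCat.ofHom (d.TSres (leOfHom f.unop))

lemma TP_isSheaf : d.TP.IsSheaf := by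
  rw [TopCat.Presheaf.isSheaf_iff_isSheafUniqueGluing]
  intro ι U sf hc
  have hc' : ∀ i j (hi : d.x0 ∈ U i) (hj : d.x0 ∈ U j),
      (sf i : d.TS (U i)).1 ⟨hi⟩ = (sf j : d.TS (U j)).1 ⟨hj⟩ := by
    intro i j hi hj
    exact congrFun (congrArg Subtype.val (hc i j)) ⟨⟨hi, hj⟩⟩
  have hex : ∀ h : PLift (d.x0 ∈ iSup U), ∃ i, d.x0 ∈ U i := fun h => Opens.mem_iSup.1 h.down
  choose k hk using hex
  refine ⟨(⟨fun h => (sf (k h) : d.TS (U (k h))).1 ⟨hk h⟩, ?_⟩ : d.TS (iSup U)), ?_, ?_⟩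
  · intro h y hy hs
    obtain ⟨j, hj⟩ := Opens.mem_iSup.1 hy
    have hj0 : d.x0 ∈ U j := hs.mem_open (U j).isOpen hj
    have := (sf j : d.TS (U j)).2 ⟨hj0⟩ y hj hs
    rw [← hc' (k h) j (hk h) hj0] at this
    exact this
  · intro i
    apply Subtype.ext
    funext h
    exact hc' _ i (hk ⟨(le_iSup U i) h.down⟩) h.down
  · intro s hs
    apply Subtype.ext
    funext h
    exact congrFun (congrArg Subtype.val (hs (k h))) ⟨hk h⟩

/-- the target sheaf -/
def T : AbSheaf (V J) := ⟨d.TP, d.TP_isSheaf⟩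

/-- the logarithmic derivative on sections -/
noncomputable def dlogS (U : Opens (V J)) : Additive (Γ(V J, U))ˣ →+ d.TS U where
  toFun u := ⟨fun h => (d.es U h.down (u.toMul : (Γ(V J, U))ˣ)).snd *
      (d.es U h.down ((u.toMul : (Γ(V J, U))ˣ)⁻¹ : (Γ(V J, U))ˣ)).fst,
    fun h y hy => mul_mem (d.es_reg U h.down _ y hy).2 (d.es_reg U h.down _ y hy).1⟩
  map_zero' := by
    apply Subtype.ext
    funext h
    simp
  map_add' u v := by
    apply Subtype.ext
    funext h
    have hu := congrArg (fun z => (d.es U h.down z).fst) (Units.mul_inv u.toMul)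
    have hv := congrArg (fun z => (d.es U h.down z).fst) (Units.mul_inv v.toMul)
    simp only [map_mul, map_one, TrivSqZeroExt.fst_mul, TrivSqZeroExt.fst_one] at hu hv
    simp only [toMul_add, mul_inv, Units.val_mul, map_mul, DualNumber.snd_mul,
      TrivSqZeroExt.fst_mul, AddSubgroup.coe_add, Pi.add_apply]
    linear_combination ((d.es U h.down (v.toMul : (Γ(V J, U))ˣ)).snd *
      (d.es U h.down ((v.toMul : (Γ(V J, U))ˣ)⁻¹ : (Γ(V J, U))ˣ)).fst) * hu +
      ((d.es U h.down (u.toMul : (Γ(V J, U))ˣ)).snd *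
      (d.es U h.down ((u.toMul : (Γ(V J, U))ˣ)⁻¹ : (Γ(V J, U))ˣ)).fst) * hv

/-- the logarithmic derivative -/
noncomputable def dlog : unitsSheaf (V J) ⟶ d.T :=
  ⟨{ app := fun U => AddCommGrpCat.ofHom (d.dlogS U.unop)
     naturality := by
      intro U W f
      ext u
      apply Subtype.ext
      funext h
      have h1 := d.es_res (leOfHom f.unop) h.down
        ((Additive.toMul (α := (Γ(V J, U.unop))ˣ) u : (Γ(V J, U.unop))ˣ) : Γ(V J, U.unop))
      have h2 := d.es_res (leOfHom f.unop) h.down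
        (((Additive.toMul (α := (Γ(V J, U.unop))ˣ) u)⁻¹ : (Γ(V J, U.unop))ˣ) : Γ(V J, U.unop))
      exact congrArg₂ (fun a b : DualNumber L => a.snd * b.fst) h1 h2 }⟩

lemma T_torsion (p : ℕ) [CharP L p] (y : H1 d.T) : p • y = 0 := by
  have h : p • 𝟙 d.T = 0 := by
    apply Sheaf.hom_ext
    ext U z
    apply Subtype.ext
    funext h
    have h1 : ∀ n : ℕ, ((n • 𝟙 d.T).hom.app U z : d.TS U.unop).1 h =
        n • (z : d.TS U.unop).1 h := by
      intro n
      induction n with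
      | zero => rw [zero_smul, zero_smul]; rfl
      | succ n ih => rw [succ_nsmul, succ_nsmul, ← ih]; rfl
    refine (h1 p).trans ?_
    rw [nsmul_eq_mul, CharP.cast_eq_zero, zero_mul]
    rfl
  have h2 : ∀ n : ℕ, Sheaf.H.map (n • 𝟙 d.T) 1 y = n • y := by
    intro n
    induction n with
    | zero => simp [Sheaf.H.map_apply]
    | succ n ih => rw [succ_nsmul, succ_nsmul, Sheaf.H.map_add_apply, ih, Sheaf.H.map_id_apply]
  rw [← h2, h]
  simp [Sheaf.H.map_apply]

end Dat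

/-- denominators -/
lemma mem_range_of_local {C L : Type} [CommRing C] [CommRing L] (ι : C →+* L) (z : L)
    (h : ∀ q : PrimeSpectrum C, RingHom.ker ι ≤ q.asIdeal →
      ∃ r f : C, f ∉ q.asIdeal ∧ z * ι f = ι r) : ∃ r, ι r = z := by
  let I : Ideal C :=
    { carrier := {f | ∃ r, z * ι f = ι r}
      add_mem' := by
        rintro a b ⟨r, hr⟩ ⟨s, hs⟩
        exact ⟨r + s, by rw [map_add, map_add, mul_add, hr, hs]⟩
      zero_mem' := ⟨0, by simp⟩
      smul_mem' := by
        rintro a b ⟨r, hr⟩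
        exact ⟨a * r, by rw [smul_eq_mul, map_mul, map_mul, ← hr]; ring⟩ }
  by_cases hI : I = ⊤
  · obtain ⟨r, hr⟩ : (1 : C) ∈ I := by rw [hI]; trivial
    exact ⟨r, by rw [← hr, map_one, mul_one]⟩
  · obtain ⟨m, hm, hle⟩ := Ideal.exists_le_maximal I hI
    have hk : RingHom.ker ι ≤ I := fun f hf => (⟨0, by
      rw [RingHom.mem_ker.1 hf, mul_zero, map_zero]⟩ : ∃ r, z * ι f = ι r)
    obtain ⟨r, f, hf, h1⟩ := h ⟨m, hm.isPrime⟩ (le_trans hk hle)
    exact absurd (hle ⟨r, h1⟩) hf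

/-- abstract obstruction -/
lemma no_filtration (p : ℕ) {CH : Type} [AddCommGroup CH] {H : ℕ → Type}
    [∀ n, AddCommGroup (H n)] (ρ : ∀ n, CH →+ H n) {M : Type} [AddCommGroup M]
    (hM : ∀ y : M, p • y = 0) (ψ : CH →+ M)
    (h : ∀ m, ∃ m', m ≤ m' ∧ ∃ x : CH, ρ m' x = 0 ∧ ψ x ≠ 0) (F : ℕ → AddSubgroup CH) :
    ¬ IsKerzFiltration p ρ F := by
  intro hF
  obtain ⟨m, hm, hle, h0⟩ := hF.proZero 1 le_rfl 1 le_rfl
  obtain ⟨m', hm', x, hx, hψ⟩ := h m
  have hanti : ∀ n, m ≤ n → F n ≤ F m := by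
    intro n hn
    induction n, hn using Nat.le_induction with
    | base => exact le_rfl
    | succ n hn ih => exact (hF.decreasing n (hm.trans hn)).trans ih
  obtain ⟨hk, σ, hσ, -⟩ := hF.inverse m' (hm.trans hm')
  have hx' : x ∈ F m' := by
    rw [← QuotientAddGroup.eq_zero_iff]
    apply hσ.injective
    rw [map_zero, QuotientAddGroup.lift_mk]
    exact hx
  have hxm : x ∈ F m := hanti m' hm' hx'
  let _ : Module (ZMod (p ^ 1)) M := AddCommGroup.zmodModule (by
    intro y; rw [pow_one]; exact hM y)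
  let B : F 1 →ₗ[ℤ] ZMod (p ^ 1) →ₗ[ℤ] M := LinearMap.mk₂ ℤ (fun a c => c • ψ a)
    (by intro a b c; simp only [AddSubgroup.coe_add, map_add, smul_add])
    (by
      intro n a c
      simp only [AddSubgroup.coe_zsmul, map_zsmul]
      exact smul_comm _ _ _)
    (by intro a b c; exact add_smul _ _ _)
    (by intro n a c; exact smul_assoc _ _ _)
  have h1 := congrArg (fun g => TensorProduct.lift B (g (TensorProduct.tmul ℤ
    (⟨x, hxm⟩ : F m) (1 : ZMod (p ^ 1))))) h0
  simp only [LinearMap.rTensor_tmul, TensorProduct.lift.tmul, LinearMap.zero_apply,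
    map_zero] at h1
  apply hψ
  have h2 : (1 : ZMod (p ^ 1)) • ψ x = 0 := h1
  rwa [one_smul] at h2

end Pool.Agent.H961Z.KZ
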