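import Pool.Agent.H961Z.KZ.Gen
import Pool.Agent.H961Z.KZ.Defs

/-!
# Closed subschemes of projective space are projective
-/

set_option autoImplicit false

open MvPolynomial Pool.Agent.Helper198.Sch AlgebraicGeometry CategoryTheory Limits
  TopologicalSpace

namespace Pool.Agent.H961Z.KZ

attribute [local instance] MvPolynomial.gradedAlgebra

variable {σ : Type} {R : Type} [CommRing R]

/-- the graded quotient map -/
noncomputable def qmk (J : HI σ R) : homogeneousSubmodule σ R →+*ᵍ qgrad J.toIdeal where
  toRingHom := Ideal.Quotient.mk J.toIdeal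
  map_mem := fun hx => mk_mem_qgrad hx

lemma qmk_X (J : HI σ R) (s : σ) : qmk J (X s) = gen J s := rfl

lemma X_mem (s : σ) : (X s : MvPolynomial σ R) ∈ homogeneousSubmodule σ R 1 :=
  isHomogeneous_X R s

lemma qmk_irr (J : HI σ R) :
    HomogeneousIdeal.irrelevant (qgrad J.toIdeal) ≤
      HomogeneousIdeal.map (qmk J) (HomogeneousIdeal.irrelevant (homogeneousSubmodule σ R)) := by
  change (HomogeneousIdeal.irrelevant (qgrad J.toIdeal)).toIdeal ≤ _
  refine le_trans (V.irrelevant_le J) ?_
  rw [Ideal.span_le]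
  rintro _ ⟨s, rfl⟩
  rw [← qmk_X J s]
  refine Ideal.mem_map_of_mem _ ?_
  exact HomogeneousIdeal.mem_irrelevant_of_mem _ one_pos (X_mem s)

lemma irr_le : (HomogeneousIdeal.irrelevant (homogeneousSubmodule σ R)).toIdeal ≤
    Ideal.span (Set.range (X : σ → MvPolynomial σ R)) := by
  refine (HomogeneousIdeal.toIdeal_irrelevant_le _).2 ?_
  intro i hi f hf
  have hf' : f.IsHomogeneous i := hf
  change f ∈ Ideal.span (Set.range (X : σ → MvPolynomial σ R))
  rw [← Set.image_univ, MvPolynomial.mem_ideal_span_X_image]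
  intro m hm
  have h2 := hf'.degree_eq_sum_deg_support hm
  by_contra hcon
  push Not at hcon
  have h3 : m = 0 := by
    ext a
    exact hcon a (Set.mem_univ _)
  rw [h3] at h2
  simp at h2
  omega

/-- the embedding in projective space -/
noncomputable def emb (J : HI σ R) : V J ⟶ Proj (homogeneousSubmodule σ R) :=
  Proj.map (qmk J) (qmk_irr J)

lemma pw_le (J : HI σ R) (s : σ) : Submonoid.powers (X s : MvPolynomial σ R) ≤
    (Submonoid.powers (gen J s)).comap (qmk J) := by
  rw [Submonoid.powers_le]
  exact ⟨1, by simp [qmk_X]⟩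

/-- the map on chart rings -/
noncomputable def hm (J : HI σ R) (s : σ) :
    HomogeneousLocalization.Away (homogeneousSubmodule σ R) (X s) →+* Ch J s :=
  HomogeneousLocalization.map (qmk J) (pw_le J s)

lemma chart_emb (J : HI σ R) (s : σ) :
    V.chart J s ≫ emb J = Spec.map (CommRingCat.ofHom (hm J s)) ≫ Proj.awayι (homogeneousSubmodule σ R) (X s) (X_mem s) one_pos :=
  V.awayι_comp_map' _ _ _ _ _ _ _ (qmk_X J s) _

lemma map_surj (J : HI σ R) (s : σ) :
    Function.Surjective (hm J s) := by
  intro x
  obtain ⟨n, y, hy, rfl⟩ := HomogeneousLocalization.Away.mk_surjective (qgrad J.toIdeal)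
    (gen_mem J s) x
  obtain ⟨f, hf, rfl⟩ := mem_qgrad.1 hy
  refine ⟨HomogeneousLocalization.Away.mk _ (X_mem s) n f hf, ?_⟩
  apply HomogeneousLocalization.val_injective
  change (Localization.mk (qmk J f) ⟨qmk J (X s ^ n), _⟩ : Localization.Away (gen J s)) =
    Localization.mk (Ideal.Quotient.mk J.toIdeal f) ⟨gen J s ^ n, _⟩
  congr 1

lemma isClosedImmersion_emb (J : HI σ R) : IsClosedImmersion (emb J) := by
  apply IsZariskiLocalAtTarget.of_openCover (Proj.affineOpenCoverOfIrrelevantLESpan
    (homogeneousSubmodule σ R) X (m := fun _ => 1) X_mem (fun _ => one_pos) irr_le).openCover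
  intro (s : σ)
  change IsClosedImmersion (pullback.snd (emb J)
    (Proj.awayι (homogeneousSubmodule σ R) (X s) (X_mem s) one_pos))
  have h : IsPullback (Spec.map (CommRingCat.ofHom (hm J s))) (V.chart J s)
      (Proj.awayι (homogeneousSubmodule σ R) (X s) (X_mem s) one_pos) (emb J) := by
    apply IsOpenImmersion.isPullback
    · exact chart_emb J s
    · rw [V.opensRange_chart, Proj.opensRange_awayι]
      exact (Proj.map_preimage_basicOpen (qmk J) (qmk_irr J) (X s))
  have h1 : pullback.snd (emb J)
      (Proj.awayι (homogeneousSubmodule σ R) (X s) (X_mem s) one_pos) =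
      h.flip.isoPullback.inv ≫ Spec.map (CommRingCat.ofHom (hm J s)) := by simp
  rw [h1]
  exact (MorphismProperty.cancel_left_of_respectsIso @IsClosedImmersion _ _).2
    (IsClosedImmersion.spec_of_surjective _ (map_surj J s))

lemma isProjective_str (N : ℕ) (J : HI (Fin (N + 1)) R) : IsProjective (V.str J) := by
  refine ⟨N, emb J, isClosedImmersion_emb J, ?_⟩
  apply (V.cover J).openCover.hom_ext
  intro (c : Fin (N + 1))
  change V.chart J c ≫ emb J ≫ Proj.toSpecZero (homogeneousSubmodule (Fin (N + 1)) R) ≫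
    Spec.map (CommRingCat.ofHom (algebraMap R (homogeneousSubmodule (Fin (N + 1)) R 0))) =
    V.chart J c ≫ V.str J
  rw [← Category.assoc, chart_emb, V.chart_str, Category.assoc,
    ← Category.assoc (Proj.awayι _ _ _ _), Proj.awayι_toSpecZero, ← Spec.map_comp,
    ← Spec.map_comp]
  congr 1

end Pool.Agent.H961Z.KZ
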