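import Pool.Agent.H961Z.KZ.Main
import Pool.Agent.H961Z.KZ.Proj

/-!
# No Kerz filtration for the constant Fermat quartic over `k[[t]]`
-/

set_option autoImplicit false

open Pool.Agent.Helper198.Sch AlgebraicGeometry CategoryTheory Limits
  TopologicalSpace Opposite
open Pool.Agent.H551Z.Quartic (JF gq gq_irreducible smooth_str)

namespace Pool.Agent.H961Z.KZ

attribute [local instance] MvPolynomial.gradedAlgebra

lemma exists_beta {k : Type} [Field k] (h2 : (2 : k) ≠ 0) (η : k) (hη : η ^ 4 = -1) (m : ℕ)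
    (hm : m ≠ 0) : ∃ β : PowerSeries k, β ^ 4 = -1 - (PowerSeries.X ^ m) ^ 4 ∧
      PowerSeries.constantCoeff β = η := by
  have hη0 : η ≠ 0 := by
    rintro rfl
    simp at hη
  have hC : (PowerSeries.C η : PowerSeries k) ^ 4 = -1 := by rw [← map_pow, hη, map_neg, map_one]
  obtain ⟨β, h1, h3⟩ := HenselianRing.is_henselian
    (I := Ideal.span {(PowerSeries.X : PowerSeries k)})
    (Polynomial.X ^ 4 + Polynomial.C (1 + (PowerSeries.X ^ m) ^ 4))
    (Polynomial.monic_X_pow_add_C _ (by norm_num)) (PowerSeries.C η) (by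
      rw [Ideal.mem_span_singleton]
      simp only [Polynomial.eval_add, Polynomial.eval_pow, Polynomial.eval_X, Polynomial.eval_C, hC]
      have : (-1 + (1 + (PowerSeries.X ^ m) ^ 4) : PowerSeries k) = (PowerSeries.X ^ m) ^ 4 := by
        ring
      rw [this]
      exact dvd_pow (dvd_pow_self _ hm) (by norm_num)) (by
      apply IsUnit.map
      rw [PowerSeries.isUnit_iff_constantCoeff]
      have h4 : (4 : k) ≠ 0 := by
        have : (4 : k) = 2 * 2 := by norm_num
        rw [this]; exact mul_ne_zero h2 h2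
      rw [Polynomial.derivative_add, Polynomial.derivative_C, add_zero,
        Polynomial.derivative_X_pow]
      simp [h4, hη0, map_ofNat])
  refine ⟨β, ?_, ?_⟩
  · have := h1.eq_zero
    simp only [Polynomial.eval_add, Polynomial.eval_pow, Polynomial.eval_X,
      Polynomial.eval_C] at this
    linear_combination this
  · rw [Ideal.mem_span_singleton, PowerSeries.X_dvd_iff, map_sub, PowerSeries.constantCoeff_C,
      sub_eq_zero] at h3
    exact h3

lemma geomIntegral {R : Type} [CommRing R] (h2 : IsUnit (2 : R)) :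
    GeometricallyIntegral (V.str (JF R)) := by
  refine ⟨?_⟩
  rw [geometrically_iff_of_commRing]
  intro K _ _ Y fst snd h
  have hr : V.Rel (algebraMap R K) (JF R) (JF K) := by
    rw [V.Rel, H551Z.Quartic.JF_toIdeal, H551Z.Quartic.JF_toIdeal, Ideal.span_le]
    rintro _ rfl
    change MvPolynomial.map (algebraMap R K) (H551Z.Quartic.fer R) ∈
      Ideal.span {H551Z.Quartic.fer K}
    rw [H551Z.Quartic.map_fer]
    exact Ideal.subset_span rfl
  have hr' : (JF K).toIdeal ≤ (JF R).toIdeal.map (MvPolynomial.map (algebraMap R K)) := by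
    rw [H551Z.Quartic.JF_toIdeal, H551Z.Quartic.JF_toIdeal, Ideal.map_span, Set.image_singleton,
      H551Z.Quartic.map_fer]
  have hp := V.isPullback_map (algebraMap R K) (JF R) (JF K) hr hr'
  have h2' : (2 : K) ≠ 0 := by
    have := (h2.map (algebraMap R K)).ne_zero
    rwa [map_ofNat] at this
  have hi := H551Z.Quartic.isIntegral_V K h2'
  exact IsIntegral.of_isIso (hp.isoIsPullback _ _ h).hom

theorem main (p : ℕ) [Fact p.Prime] (hp : p ≠ 2) (k : Type) [Field k] [CharP k p]
    (hη : ∃ η : k, η ^ 4 = -1) :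
    ∃ (X : Scheme.{0}) (s : X ⟶ Spec (.of (PowerSeries k))),
      SmoothOfRelativeDimension 1 s ∧ IsProjective s ∧ GeometricallyIntegral s ∧
      ∀ (CH : Type) [AddCommGroup CH] (β : CH ≃+ H1 (unitsSheaf X)) (F : ℕ → AddSubgroup CH),
        ¬ IsKerzFiltration p (fun n => (res s PowerSeries.X n).comp β.toAddMonoidHom) F := by
  obtain ⟨η, hη⟩ := hη
  have hpp : p.Prime := Fact.out
  have h2 : (2 : k) ≠ 0 := by
    intro h
    have h3 : ((2 : ℕ) : k) = 0 := by exact_mod_cast h
    rw [CharP.cast_eq_zero_iff k p] at h3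
    exact hp ((Nat.prime_dvd_prime_iff_eq hpp Nat.prime_two).1 h3)
  have h4 : (4 : k) ≠ 0 := by
    have : (4 : k) = 2 * 2 := by norm_num
    rw [this]; exact mul_ne_zero h2 h2
  have hη0 : η ≠ 0 := by
    rintro rfl
    simp at hη
  have hη1 : η ^ 2 - 1 ≠ 0 := fun h => h2 (by linear_combination hη - (η ^ 2 + 1) * h)
  have hη2 : 1 + η ^ 2 ≠ 0 := fun h => h2 (by linear_combination hη - (η ^ 2 - 1) * h)
  have hA2 : IsUnit (2 : PowerSeries k) := by
    rw [PowerSeries.isUnit_iff_constantCoeff, map_ofNat]; exact IsUnit.mk0 _ h2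
  have hA4 : IsUnit (4 : PowerSeries k) := by
    rw [PowerSeries.isUnit_iff_constantCoeff, map_ofNat]; exact IsUnit.mk0 _ h4
  refine ⟨V (JF (PowerSeries k)), V.str _, smooth_str hA4, isProjective_str 2 _,
    geomIntegral hA2, ?_⟩
  intro CH _ β F
  let K := FractionRing (PowerSeries k)
  have hK : Function.Injective (algebraMap (PowerSeries k) K) := IsFractionRing.injective _ _
  have hK4 : (4 : K) ≠ 0 := by
    have := (hA4.map (algebraMap (PowerSeries k) K)).ne_zero
    rwa [map_ofNat] at this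
  have hdom : IsDomain (BK K) := AdjoinRoot.isDomain_of_prime (gq_irreducible K hK4).prime
  let L := FractionRing (BK K)
  let j : BK K →+* L := algebraMap _ _
  have hj : Function.Injective j := IsFractionRing.injective _ _
  have hL : CharP L p := charP_of_injective_ringHom
    (f := (jA (k := k) j).comp PowerSeries.C) (RingHom.injective _) p
  let _ := algE (k := k) j
  let d := dat (k := k) j hj
  apply no_filtration p _ (d.T_torsion p) ((Sheaf.H.map d.dlog 1).comp β.toAddMonoidHom)
  intro m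
  have hm0 : p * m + 1 ≠ 0 := Nat.succ_ne_zero _
  obtain ⟨b, hb, hb0⟩ := exists_beta h2 η hη (p * m + 1) hm0
  have hC : (PowerSeries.C η : PowerSeries k) ^ 4 = -1 := by rw [← map_pow, hη, map_neg, map_one]
  have hcof : cof η η ≠ 0 := by
    have : cof η η = 4 * η ^ 3 := by unfold cof; ring
    rw [this]; exact mul_ne_zero h4 (pow_ne_zero _ hη0)
  have u1 : IsUnit (cof (PowerSeries.C η : PowerSeries k) (PowerSeries.C η)) := by
    rw [PowerSeries.isUnit_iff_constantCoeff, map_cof, PowerSeries.constantCoeff_C]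
    exact IsUnit.mk0 _ hcof
  have u2 : IsUnit (cof (PowerSeries.C η : PowerSeries k) b) := by
    rw [PowerSeries.isUnit_iff_constantCoeff, map_cof, PowerSeries.constantCoeff_C, hb0]
    exact IsUnit.mk0 _ hcof
  have u3 : IsUnit (cof b b) := by
    rw [PowerSeries.isUnit_iff_constantCoeff, map_cof, hb0]
    exact IsUnit.mk0 _ hcof
  have hne : ∀ f : PowerSeries k, PowerSeries.constantCoeff f ≠ 0 → f ≠ 0 := by
    rintro f hf rfl
    exact hf (map_zero _)
  obtain ⟨u, hu⟩ := exists_unit (PowerSeries.X ^ (p * m + 1)) _ (inter_le hC hb)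
  obtain ⟨c, hc⟩ := exists_class _ _ (cover (PowerSeries.X ^ (p * m + 1)) u1 u2 u3)
    (unitsSheaf (V (JF (PowerSeries k)))) (Additive.ofMul u)
  refine ⟨p * m + 1, le_trans (Nat.le_mul_of_pos_left m hpp.pos) (Nat.le_succ _), β.symm c, ?_, ?_⟩
  · change res _ _ _ (β (β.symm c)) = 0
    rw [AddEquiv.apply_symm_apply]
    exact (hc _ _).1 (res_unit_eq_one _ _ _ (inter_le hC hb) u hu)
  · change Sheaf.H.map d.dlog 1 (β (β.symm c)) ≠ 0
    rw [AddEquiv.apply_symm_apply]
    intro h0
    obtain ⟨a', b', hab⟩ := (hc _ _).2 h0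
    refine no_split j hj hK _ _ _ hC hb u1 u2 u3 ?_ ?_ ?_ ?_ u hu a' b' hab
    · apply hne
      simp only [map_mul, map_sub, map_neg, hb0, PowerSeries.constantCoeff_C]
      have : (-η - η) * (-η - η) = 4 * η ^ 2 := by ring
      rw [this]; exact mul_ne_zero h4 (pow_ne_zero _ hη0)
    · apply hne
      simp only [map_mul, map_sub, map_pow, hb0, PowerSeries.constantCoeff_C]
      have : (η ^ 2 * η - η) * (η ^ 2 * η - η) = (η * (η ^ 2 - 1)) ^ 2 := by ring
      rw [this]; exact pow_ne_zero _ (mul_ne_zero hη0 hη1)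
    · apply hne
      simp only [map_mul, map_add, map_pow, map_one, hb0, PowerSeries.constantCoeff_C]
      exact mul_ne_zero hη0 hη2
    · intro h
      have h1 := congrArg (PowerSeries.coeff (p * m)) h
      rw [PowerSeries.coeff_derivative, PowerSeries.coeff_X_pow, if_pos rfl, map_zero] at h1
      simp at h1

end Pool.Agent.H961Z.KZ
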