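import Pool.Agent.H551Z.QuarticC

/-!
# Germs of chart functions on closed subschemes of projective space over a ring
-/

set_option autoImplicit false

open MvPolynomial Pool.Agent.Helper198.Sch AlgebraicGeometry CategoryTheory Limits
  TopologicalSpace Pool.Agent.H551Z.Quartic

namespace Pool.Agent.H961Z.KZ

attribute [local instance] MvPolynomial.gradedAlgebra

variable {σ : Type} {R : Type} [CommRing R]

/-- elements of the chart ring as sections. -/
noncomputable def sec (J : HI σ R) (c : σ) : CommRingCat.of (Ch J c) ⟶ Γ(V J, V.D J c) :=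
  Proj.awayToSection (qgrad J.toIdeal) (gen J c)

/-- the local ring at a point -/
def St (J : HI σ R) (x : V J) : Type := (V J).presheaf.stalk x

noncomputable instance (J : HI σ R) (x : V J) : CommRing (St J x) :=
  ((V J).presheaf.stalk x).commRing

/-- germs of sections -/
noncomputable def germ (J : HI σ R) (U : (V J).Opens) (x : V J) (hx : x ∈ U) :
    Γ(V J, U) →+* St J x := ((V J).presheaf.germ U x hx).hom

/-- germs of elements of the chart ring. -/
noncomputable def gm (J : HI σ R) (c : σ) (x : V J) (hx : x ∈ V.D J c) : Ch J c →+* St J x :=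
  (germ J (V.D J c) x hx).comp (sec J c).hom

lemma gm_stalkIso (J : HI σ R) (c : σ) (x : V J) (hx : x ∈ V.D J c) (r : Ch J c) :
    (AlgebraicGeometry.Proj.stalkIso' (qgrad J.toIdeal) x (gm J c x hx r)).val =
      IsLocalization.map (M := Submonoid.powers (gen J c))
        (T := (ProjectiveSpectrum.asHomogeneousIdeal (𝒜 := qgrad J.toIdeal) x).toIdeal.primeCompl) _
        (RingHom.id _) (Submonoid.powers_le.mpr hx) (chVal J c r) := by
  have h := AlgebraicGeometry.Proj.stalkIso'_germ (qgrad J.toIdeal) (V.D J c) x hx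
    ((sec J c).hom r)
  have h2 := ProjectiveSpectrum.Proj.awayToSection_apply (qgrad J.toIdeal) (gen J c) r ⟨x, hx⟩
  exact (congrArg HomogeneousLocalization.val h).trans h2

lemma gm_frac_mul (J : HI σ R) (c : σ) (x : V J) (hx : x ∈ V.D J c) (a : σ) :
    algebraMap (MvPolynomial σ R ⧸ J.toIdeal) (Localization
      (ProjectiveSpectrum.asHomogeneousIdeal (𝒜 := qgrad J.toIdeal) x).toIdeal.primeCompl)
        (gen J c) *
      (AlgebraicGeometry.Proj.stalkIso' (qgrad J.toIdeal) x (gm J c x hx (frac J c a))).val =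
    algebraMap (MvPolynomial σ R ⧸ J.toIdeal) _ (gen J a) := by
  rw [gm_stalkIso]
  have h := congrArg (IsLocalization.map (M := Submonoid.powers (gen J c))
        (T := (ProjectiveSpectrum.asHomogeneousIdeal (𝒜 := qgrad J.toIdeal) x).toIdeal.primeCompl)
        (Localization
      (ProjectiveSpectrum.asHomogeneousIdeal (𝒜 := qgrad J.toIdeal) x).toIdeal.primeCompl)
        (RingHom.id _) (Submonoid.powers_le.mpr hx)) (chVal_frac J c a)
  rw [map_mul, IsLocalization.map_eq, IsLocalization.map_eq] at h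
  exact h

lemma gm_trans (J : HI σ R) (c c' : σ) (x : V J) (hx : x ∈ V.D J c)
    (hx' : x ∈ V.D J c') (a : σ) :
    gm J c x hx (frac J c a) = gm J c x hx (frac J c c') * gm J c' x hx' (frac J c' a) := by
  apply (AlgebraicGeometry.Proj.stalkIso' (qgrad J.toIdeal) x).injective
  apply HomogeneousLocalization.val_injective
  have e := (AlgebraicGeometry.Proj.stalkIso' (qgrad J.toIdeal) x).map_mul
    (gm J c x hx (frac J c c')) (gm J c' x hx' (frac J c' a))
  refine Eq.trans ?_ (congrArg HomogeneousLocalization.val e).symm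
  rw [HomogeneousLocalization.val_mul]
  have h1 := gm_frac_mul J c x hx a
  have h2 := gm_frac_mul J c x hx c'
  have h3 := gm_frac_mul J c' x hx' a
  have hu : IsUnit (algebraMap (MvPolynomial σ R ⧸ J.toIdeal) (Localization
      (ProjectiveSpectrum.asHomogeneousIdeal (𝒜 := qgrad J.toIdeal) x).toIdeal.primeCompl)
        (gen J c)) := IsLocalization.map_units _ (⟨gen J c, hx⟩ :
          (ProjectiveSpectrum.asHomogeneousIdeal (𝒜 := qgrad J.toIdeal) x).toIdeal.primeCompl)
  apply hu.mul_left_cancel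
  rw [h1, ← mul_assoc, h2, h3]

lemma gm_algebraMap (J : HI σ R) (c c' : σ) (x : V J) (hx : x ∈ V.D J c)
    (hx' : x ∈ V.D J c') (r : R) :
    gm J c x hx (algebraMap R _ r) = gm J c' x hx' (algebraMap R _ r) := by
  apply (AlgebraicGeometry.Proj.stalkIso' (qgrad J.toIdeal) x).injective
  apply HomogeneousLocalization.val_injective
  rw [gm_stalkIso, gm_stalkIso, AlgHom.commutes, AlgHom.commutes,
    IsScalarTower.algebraMap_apply R (MvPolynomial σ R ⧸ J.toIdeal) (Localization.Away (gen J c)),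
    IsScalarTower.algebraMap_apply R (MvPolynomial σ R ⧸ J.toIdeal) (Localization.Away (gen J c')),
    IsLocalization.map_eq, IsLocalization.map_eq]

lemma sec_chart (J : HI σ R) (c : σ) (h : ⊤ ≤ V.chart J c ⁻¹ᵁ V.D J c) :
    sec J c ≫ (V.chart J c).appLE (V.D J c) ⊤ h = (Scheme.ΓSpecIso (.of (Ch J c))).inv :=
  away_sec (qgrad J.toIdeal) (gen J c) (gen_mem J c) one_pos h

lemma chart_mem (J : HI σ R) (c : σ) (q : Spec (.of (Ch J c))) : V.chart J c q ∈ V.D J c :=
  (V.mem_range_chart J c _).1 ⟨q, rfl⟩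

lemma chart_mem_basicOpen (J : HI σ R) (c : σ) (q : Spec (.of (Ch J c))) (f : Ch J c) :
    V.chart J c q ∈ (V J).basicOpen ((sec J c).hom f) ↔ f ∉ q.asIdeal := by
  have h0 : ⊤ ≤ V.chart J c ⁻¹ᵁ V.D J c := fun y _ => chart_mem J c y
  have h1 := Scheme.basicOpen_appLE (V.chart J c) ⊤ (V.D J c) h0 ((sec J c).hom f)
  have h2 : ((V.chart J c).appLE (V.D J c) ⊤ h0) ((sec J c).hom f) =
      (Scheme.ΓSpecIso (.of (Ch J c))).inv f := congrArg (fun g => g.hom f) (sec_chart J c h0)
  rw [h2, basicOpen_eq_of_affine, top_inf_eq] at h1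
  have h3 : q ∈ PrimeSpectrum.basicOpen f ↔
      q ∈ V.chart J c ⁻¹ᵁ (V J).basicOpen ((sec J c).hom f) := by
    rw [← h1]
    exact Iff.rfl
  exact h3.symm

lemma isUnit_gm_iff (J : HI σ R) (c : σ) (x : V J) (hx : x ∈ V.D J c) (f : Ch J c) :
    IsUnit (gm J c x hx f) ↔ x ∈ (V J).basicOpen ((sec J c).hom f) :=
  (Scheme.mem_basicOpen _ _ x hx).symm

lemma isUnit_gm_chart (J : HI σ R) (c : σ) (q : Spec (.of (Ch J c))) (f : Ch J c) :
    IsUnit (gm J c _ (chart_mem J c q) f) ↔ f ∉ q.asIdeal := by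
  rw [isUnit_gm_iff, chart_mem_basicOpen]

lemma sec_surjective (J : HI σ R) (c : σ) : Function.Surjective (sec J c).hom :=
  (Proj.basicOpenIsoAway (qgrad J.toIdeal) (gen J c) (gen_mem J c)
    one_pos).commRingCatIsoToRingEquiv.surjective

lemma exists_frac (J : HI σ R) (c : σ) (q : Spec (.of (Ch J c))) (z : St J (V.chart J c q)) :
    ∃ r f : Ch J c, f ∉ q.asIdeal ∧
      z * gm J c _ (chart_mem J c q) f = gm J c _ (chart_mem J c q) r := by
  have hU : IsAffineOpen (V.D J c) :=
    Proj.isAffineOpen_basicOpen (qgrad J.toIdeal) (gen J c) (gen_mem J c) one_pos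
  let := TopCat.Presheaf.algebra_section_stalk (V J).presheaf
    (⟨V.chart J c q, chart_mem J c q⟩ : V.D J c)
  have hl := hU.isLocalization_stalk ⟨V.chart J c q, chart_mem J c q⟩
  obtain ⟨⟨a, b⟩, hab⟩ := IsLocalization.surj
    (hU.primeIdealOf ⟨V.chart J c q, chart_mem J c q⟩).asIdeal.primeCompl
    (S := (V J).presheaf.stalk (⟨V.chart J c q, chart_mem J c q⟩ : V.D J c).1) z
  have hb := IsLocalization.map_units
    ((V J).presheaf.stalk (⟨V.chart J c q, chart_mem J c q⟩ : V.D J c).1) b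
  obtain ⟨r, hr⟩ := sec_surjective J c a
  obtain ⟨f, hf⟩ := sec_surjective J c b.1
  refine ⟨r, f, ?_, ?_⟩
  · rw [← isUnit_gm_chart]
    change IsUnit (germ J _ _ _ ((sec J c).hom f))
    rw [hf]
    exact hb
  · change z * germ J _ _ _ ((sec J c).hom f) = germ J _ _ _ ((sec J c).hom r)
    rw [hf, hr]
    exact hab

/-- specialization map -/
noncomputable def spec (J : HI σ R) {x y : V J} (h : x ⤳ y) : St J y →+* St J x :=
  ((V J).presheaf.stalkSpecializes h).hom

lemma spec_germ (J : HI σ R) {x y : V J} (h : x ⤳ y) (U : (V J).Opens) (hy : y ∈ U)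
    (hx : x ∈ U) (s : Γ(V J, U)) : spec J h (germ J U y hy s) = germ J U x hx s :=
  congrArg (fun g => g.hom s) ((V J).presheaf.germ_stalkSpecializes hy h)

lemma germ_res (J : HI σ R) {U W : (V J).Opens} (i : W ≤ U) (x : V J) (hx : x ∈ W)
    (s : Γ(V J, U)) :
    germ J W x hx ((V J).presheaf.map (homOfLE i).op s) = germ J U x (i hx) s :=
  (V J).presheaf.germ_res_apply (homOfLE i) x hx s

section pt

variable (J : HI σ R) (c : σ) {E : Type} [CommRing E] [IsLocalRing E] [Algebra R E]
  (φ : Ch J c →ₐ[R] E)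

/-- the image of the closed point -/
noncomputable def cpt : V J := ptOf J c φ (IsLocalRing.closedPoint E)

lemma cpt_mem : cpt J c φ ∈ V.D J c :=
  ptOf_mem J c φ _ c (by rw [frac_self, map_one]; exact isUnit_one)

/-- evaluation of germs -/
noncomputable def evR : St J (cpt J c φ) →+* E :=
  (Scheme.stalkClosedPointTo (R := .of E) (ptOf J c φ)).hom

lemma evR_isUnit (z : St J (cpt J c φ)) : IsUnit (evR J c φ z) ↔ IsUnit z :=
  ⟨fun h => (Scheme.isLocalHom_stalkClosedPointTo' (ptOf J c φ)).map_nonunit z h,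
    fun h => h.map _⟩

lemma evR_gm (r : Ch J c) : evR J c φ (gm J c _ (cpt_mem J c φ) r) = φ r := by
  have h0 : ⊤ ≤ V.chart J c ⁻¹ᵁ V.D J c := by
    intro y _
    exact (V.mem_range_chart J c _).1 ⟨y, rfl⟩
  have h1 : ⊤ ≤ ptOf J c φ ⁻¹ᵁ V.D J c := by
    intro y _
    exact ptOf_mem J c φ y c (by rw [frac_self, map_one]; exact isUnit_one)
  have h2 := germ_closed (R := .of E) (ptOf J c φ) (V.D J c) (cpt_mem J c φ) h1
  have h3 : (ptOf J c φ).appLE (V.D J c) ⊤ h1 = (V.chart J c).appLE (V.D J c) ⊤ h0 ≫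
      (Spec.map (CommRingCat.ofHom (φ : Ch J c →+* E))).appLE ⊤ ⊤ le_top := by
    rw [Scheme.Hom.appLE_comp_appLE]
    rfl
  have h4 : sec J c ≫ (V J).presheaf.germ (V.D J c) _ (cpt_mem J c φ) ≫
      Scheme.stalkClosedPointTo (R := .of E) (ptOf J c φ) =
      CommRingCat.ofHom (φ : Ch J c →+* E) := by
    refine (congrArg (fun g => sec J c ≫ g) h2).trans ?_
    rw [h3, Category.assoc, ← Category.assoc (sec J c), sec_chart, specMap_appLE]
  exact congrArg (fun g => g.hom r) h4

end pt

/-- constants as sections over the chart -/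
lemma sec_algebraMap (J : HI σ R) (c : σ) (r : R) :
    (sec J c).hom (algebraMap R _ r) = (V J).presheaf.map (homOfLE le_top).op
      ((V.str J).appTop ((Scheme.ΓSpecIso (.of R)).inv r)) := by
  have h0 : ⊤ ≤ V.chart J c ⁻¹ᵁ V.D J c := fun y _ => chart_mem J c y
  have hinj : Function.Injective ((V.chart J c).appLE (V.D J c) ⊤ h0).hom := by
    intro a b hab
    obtain ⟨a, rfl⟩ := sec_surjective J c a
    obtain ⟨b, rfl⟩ := sec_surjective J c b
    have h2 : ∀ f, ((V.chart J c).appLE (V.D J c) ⊤ h0).hom ((sec J c).hom f) =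
      (Scheme.ΓSpecIso (.of (Ch J c))).inv f :=
      fun f => congrArg (fun g => g.hom f) (sec_chart J c h0)
    rw [h2, h2] at hab
    have := (Scheme.ΓSpecIso (.of (Ch J c))).symm.commRingCatIsoToRingEquiv.injective hab
    rw [this]
  apply hinj
  have h2 : ((V.chart J c).appLE (V.D J c) ⊤ h0).hom ((sec J c).hom (algebraMap R _ r)) =
      (Scheme.ΓSpecIso (.of (Ch J c))).inv (algebraMap R _ r) :=
    congrArg (fun g => g.hom (algebraMap R _ r)) (sec_chart J c h0)
  rw [h2]
  have h3 : (V.str J).appTop ≫ (V J).presheaf.map (homOfLE le_top).op ≫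
      (V.chart J c).appLE (V.D J c) ⊤ h0 = (V.chart J c ≫ V.str J).appTop := by
    rw [Scheme.Hom.map_appLE, Scheme.Hom.comp_appTop]
    congr 1
  have h4 := congrArg (fun g => g.hom ((Scheme.ΓSpecIso (.of R)).inv r)) h3
  refine Eq.trans ?_ h4.symm
  rw [V.chart_str]
  exact (congrArg (fun g => g.hom r)
    (Scheme.ΓSpecIso_inv_naturality (CommRingCat.ofHom (algebraMap R (Ch J c)))))

end Pool.Agent.H961Z.KZ
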