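import Pool.Agent.H961Z.KZ.Cover
import Pool.Agent.H961Z.KZ.Alg

/-!
# Non-vanishing of the logarithmic derivative of the class
-/

set_option autoImplicit false

open Pool.Agent.Helper198.Sch AlgebraicGeometry CategoryTheory Limits
  TopologicalSpace Opposite
open Pool.Agent.H551Z.Quartic (JF frac_rel chart_mem_D lift lift_one lift_two gq)

namespace Pool.Agent.H961Z.KZ

attribute [local instance] MvPolynomial.gradedAlgebra

section

variable {k : Type} [Field k] {K : Type} [Field K] [Algebra (PowerSeries k) K]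
  {L : Type} [Field L] (j : BK K →+* L)

/-- constants -/
noncomputable def jA : PowerSeries k →+* L := j.comp (algebraMap (PowerSeries k) (BK K))

/-- constants with their derivatives -/
noncomputable def theta : PowerSeries k →+* DualNumber L where
  toFun a := TrivSqZeroExt.inl (jA j a) + TrivSqZeroExt.inr (jA j (PowerSeries.derivative k a))
  map_one' := by
    ext <;> simp [Derivation.map_one_eq_zero]
  map_mul' a b := by
    ext
    · simp
    · simp only [Derivation.leibniz, smul_eq_mul, map_add, map_mul, DualNumber.snd_mul,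
        TrivSqZeroExt.snd_add, TrivSqZeroExt.fst_add, TrivSqZeroExt.snd_inl, TrivSqZeroExt.snd_inr,
        TrivSqZeroExt.fst_inl, TrivSqZeroExt.fst_inr, zero_add, add_zero]
      ring
  map_zero' := by ext <;> simp
  map_add' a b := by ext <;> simp

lemma theta_fst (a : PowerSeries k) : (theta j a).fst = jA j a := by simp [theta]

lemma theta_snd (a : PowerSeries k) : (theta j a).snd = jA j (PowerSeries.derivative k a) := by
  simp [theta]

/-- the algebra structure on dual numbers -/
@[reducible] noncomputable def algE : Algebra (PowerSeries k) (DualNumber L) := (theta j).toAlgebra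

lemma rel_E : (1 : DualNumber L) + TrivSqZeroExt.inl (j (xB K)) ^ 4 +
    TrivSqZeroExt.inl (j (yB K)) ^ 4 = 0 := by
  have h := congrArg (fun z => (TrivSqZeroExt.inl (j z) : DualNumber L)) (xy_rel K)
  simpa only [map_add, map_pow, map_one, map_zero, TrivSqZeroExt.inl_add, TrivSqZeroExt.inl_pow,
    TrivSqZeroExt.inl_one, TrivSqZeroExt.inl_zero] using h

lemma x_ne (hj : Function.Injective j) (p : Polynomial K) (hp : p ≠ 0) :
    j (AdjoinRoot.of (gq K) p) ≠ 0 := by
  intro h
  apply hp
  apply of_injective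
  apply hj
  rw [h, map_zero, map_zero]

lemma y_ne (hj : Function.Injective j) : j (yB K) ≠ 0 := by
  intro h
  apply x_ne j hj (1 + Polynomial.X ^ 4) (by
    intro h2
    have := congrArg (Polynomial.eval 0) h2
    simp at this)
  have h2 := congrArg j (xy_rel K)
  rw [map_add, map_pow, h, map_zero] at h2
  rw [map_add, map_one, map_pow]
  simpa [xB] using h2

/-- the data -/
noncomputable def dat (hj : Function.Injective j) :
    @Dat _ _ _ (JF (PowerSeries k)) L _ (algE j) :=
  letI := algE (k := k) j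
  { c0 := 0
    φ := lift 0 _ _ (rel_E j)
    fst_ne := by
      intro c
      fin_cases c
      · change (lift 0 _ _ (rel_E j) (frac (JF (PowerSeries k)) 0 0)).fst ≠ 0
        rw [frac_self, map_one]; simp
      · change (lift 0 _ _ (rel_E j) (frac (JF (PowerSeries k)) 0 (0 + 1))).fst ≠ 0
        rw [lift_one]
        exact x_ne j hj _ Polynomial.X_ne_zero
      · change (lift 0 _ _ (rel_E j) (frac (JF (PowerSeries k)) 0 (0 + 2))).fst ≠ 0
        rw [lift_two]
        exact y_ne j hj
    snd_eq := by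
      intro c
      fin_cases c
      · change (lift 0 _ _ (rel_E j) (frac (JF (PowerSeries k)) 0 0)).snd = 0
        rw [frac_self, map_one]; simp
      · change (lift 0 _ _ (rel_E j) (frac (JF (PowerSeries k)) 0 (0 + 1))).snd = 0
        rw [lift_one]; rfl
      · change (lift 0 _ _ (rel_E j) (frac (JF (PowerSeries k)) 0 (0 + 2))).snd = 0
        rw [lift_two]; rfl
    der := fun r => ⟨PowerSeries.derivative k r, (theta_snd j r).trans (theta_fst j _).symm⟩ }

/-- the chart ring maps to the coordinate ring of the generic fibre -/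
noncomputable def psi0 : Ch (JF (PowerSeries k)) 0 →ₐ[PowerSeries k] BK K :=
  lift 0 _ _ (xy_rel K)

lemma psi0_x : psi0 (k := k) (K := K) (xc _) = xB K := lift_one 0 _ _ (xy_rel K)

lemma psi0_y : psi0 (k := k) (K := K) (yc _) = yB K := lift_two 0 _ _ (xy_rel K)

theorem no_split (hj : Function.Injective j) (hK : Function.Injective (algebraMap (PowerSeries k) K))
    (τ η β : PowerSeries k) (hη : η ^ 4 = -1) (hβ : β ^ 4 = -1 - τ ^ 4)
    (u1 : IsUnit (cof η η)) (u2 : IsUnit (cof η β)) (u3 : IsUnit (cof β β))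
    (v1 : (-β - η) * (-β - β) ≠ 0) (v2 : (η ^ 2 * β - η) * (η ^ 2 * β - β) ≠ 0)
    (v3 : β * (1 + η ^ 2) ≠ 0)
    (hτ : PowerSeries.derivative k τ ≠ 0)
    (u : (Γ(V (JF (PowerSeries k)), U0 τ η β ⊓ U1 η β))ˣ)
    (hu : (u : Γ(V (JF (PowerSeries k)), U0 τ η β ⊓ U1 η β)) =
      (V (JF (PowerSeries k))).presheaf.map (homOfLE ((inter_le hη hβ).trans (GO_le τ))).op
        ((sec (JF (PowerSeries k)) 1).hom (gg τ))) :
    letI := algE (k := k) j
    ∀ (a : (dat (k := k) j hj).TS (U0 τ η β)) (b : (dat (k := k) j hj).TS (U1 η β)),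
      (dat (k := k) j hj).dlogS _ (Additive.ofMul u) ≠
        (dat (k := k) j hj).TSres inf_le_left a - (dat (k := k) j hj).TSres inf_le_right b := by
  let _ := algE (k := k) j
  let d := dat (k := k) j hj
  intro (a : d.TS _) (b : d.TS _) hab
  have hι0 : ∀ r, d.ι 0 r = j (psi0 r) := by
    have : d.ι 0 = j.comp (psi0 (k := k) (K := K) : Ch (JF (PowerSeries k)) 0 →+* BK K) := by
      apply ch_ringHom_ext
      · intro r
        rw [Dat.ι_apply, Dat.e_algebraMap]
        refine (theta_fst j r).trans ?_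
        change _ = j (psi0 (algebraMap _ _ r))
        rw [AlgHom.commutes]
        rfl
      · intro c
        rw [Dat.ι_apply]
        change (d.e d.c0 (frac _ d.c0 c)).fst = j (psi0 (frac _ 0 c))
        rw [Dat.e_c0]
        fin_cases c
        · change (lift 0 _ _ (rel_E j) (frac (JF (PowerSeries k)) 0 0)).fst =
            j (psi0 (frac _ 0 0))
          rw [frac_self, map_one, map_one, map_one]; rfl
        · change (lift 0 _ _ (rel_E j) (frac (JF (PowerSeries k)) 0 (0 + 1))).fst =
            j (psi0 (xc _))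
          rw [lift_one, psi0_x]; rfl
        · change (lift 0 _ _ (rel_E j) (frac (JF (PowerSeries k)) 0 (0 + 2))).fst =
            j (psi0 (yc _))
          rw [lift_two, psi0_y]; rfl
    intro r
    rw [this]; rfl
  have hιA : ∀ c (r : PowerSeries k), d.ι c (algebraMap _ _ r) = jA j r := by
    intro c r
    rw [Dat.ι_apply, Dat.e_algebraMap]
    exact theta_fst j r
  have hx0 : j (xB K) ≠ 0 := x_ne j hj _ Polynomial.X_ne_zero
  have hφ1 : (d.φ (frac _ d.c0 1)).fst = j (xB K) := by
    rw [← Dat.e_c0]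
    exact (hι0 (xc _)).trans (by rw [psi0_x])
  have hφ2 : (d.φ (frac _ d.c0 2)).fst = j (yB K) := by
    rw [← Dat.e_c0]
    exact (hι0 (yc _)).trans (by rw [psi0_y])
  have hw : j (xB K) * d.ι 1 (wc _) = 1 := by
    have := d.ι_frac 1 0
    rw [hφ1] at this
    refine this.symm.trans ?_
    change (d.φ (frac _ d.c0 d.c0)).fst = 1
    rw [frac_self, map_one]; rfl
  have hv : j (xB K) * d.ι 1 (frac _ 1 2) = j (yB K) := by
    have := d.ι_frac 1 2
    rw [hφ1, hφ2] at this
    exact this.symm
  -- the base point lies in both opens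
  have hxτ : j (xB K) - jA j τ ≠ 0 := by
    have h := x_ne j hj (Polynomial.X - Polynomial.C (algebraMap _ K τ))
      (Polynomial.X_sub_C_ne_zero _)
    rw [map_sub, map_sub] at h
    exact h
  have hunit : ∀ c f, d.ι c f ≠ 0 →
      d.x0 ∈ (V (JF (PowerSeries k))).basicOpen ((sec _ c).hom f) := by
    intro c f hf
    rw [← isUnit_gm_iff _ _ _ (d.x0_mem c)]
    exact (evR_isUnit _ d.c0 d.φ _).1 (TrivSqZeroExt.isUnit_iff_isUnit_fst.2 (IsUnit.mk0 _ hf))
  have hnh : d.ι 0 (nn η β * hh η β) ≠ 0 := by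
    have h := x_ne j hj (Polynomial.X ^ 4 * (Polynomial.X ^ 4 -
      Polynomial.C (algebraMap _ K τ ^ 4))) (mul_ne_zero (pow_ne_zero _ Polynomial.X_ne_zero)
        (Polynomial.X_pow_sub_C_ne_zero (by norm_num) _))
    rw [nn_mul_hh hη hβ, map_mul, map_mul, map_cof, map_sub, map_pow, hιA, hι0, psi0_x]
    simp only [map_mul, map_sub, map_pow] at h
    intro h2
    apply h
    change j (xB K) ^ 4 * (j (xB K) ^ 4 - jA j τ ^ 4) = 0
    rw [← h2]; unfold cof; ring
  rw [map_mul] at hnh
  have hb0 : d.x0 ∈ U0 τ η β := Or.inr (hunit 0 _ (left_ne_zero_of_mul hnh))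
  have hb1 : d.x0 ∈ U1 η β := hunit 0 _ (right_ne_zero_of_mul hnh)
  have hb01 : d.x0 ∈ U0 τ η β ⊓ U1 η β := ⟨hb0, hb1⟩
  set a0 : L := a.1 ⟨hb0⟩ with ha0
  set b0 : L := b.1 ⟨hb1⟩ with hb0'
  set τ' := PowerSeries.derivative k τ with hτ'
  have hrel : (a0 - b0) * (j (xB K) - jA j τ) = -jA j τ' := by
    have h1 := congrFun (congrArg Subtype.val hab) ⟨hb01⟩
    have h2 : (d.es _ hb01 (u : Γ(V (JF (PowerSeries k)), U0 τ η β ⊓ U1 η β))).snd *
      (d.es _ hb01 ((u⁻¹ : (Γ(V (JF (PowerSeries k)), U0 τ η β ⊓ U1 η β))ˣ) :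
        Γ(V (JF (PowerSeries k)), U0 τ η β ⊓ U1 η β))).fst = a0 - b0 := h1
    have h3 := congrArg (fun z => (d.es _ hb01 z).fst) (Units.mul_inv u)
    simp only [map_mul, map_one, TrivSqZeroExt.fst_mul, TrivSqZeroExt.fst_one] at h3
    have h4 : d.es _ hb01 (u : Γ(V (JF (PowerSeries k)), U0 τ η β ⊓ U1 η β)) =
        d.e 1 (gg τ) := by
      rw [hu, Dat.es_res]
      rfl
    have h5 : (d.e 1 (gg τ)).fst = 1 - jA j τ * d.ι 1 (wc _) := by
      rw [← Dat.ι_apply, gg, map_sub, map_mul, map_one, hιA]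
    have h6 : (d.e 1 (gg τ)).snd = -(jA j τ' * d.ι 1 (wc _)) := by
      rw [gg, map_sub, map_mul, map_one, Dat.e_algebraMap, TrivSqZeroExt.snd_sub,
        DualNumber.snd_mul, wc, Dat.e_frac_snd, mul_zero, zero_add, TrivSqZeroExt.snd_one,
        zero_sub]
      congr 2
      exact theta_snd j τ
    rw [h4, h6] at h2
    rw [h4, h5] at h3
    rw [← h2]
    set s := (d.es _ hb01 ((u⁻¹ : (Γ(V (JF (PowerSeries k)), U0 τ η β ⊓ U1 η β))ˣ) :
        Γ(V (JF (PowerSeries k)), U0 τ η β ⊓ U1 η β))).fst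
    linear_combination (-jA j τ') * h3 - (jA j τ' * s) * hw
  -- local regularity
  have hloc : ∀ c (q : PrimeSpectrum (Ch (JF (PowerSeries k)) c)),
      RingHom.ker (d.ι c) ≤ q.asIdeal →
      (V.chart _ c q ∈ U0 τ η β → ∃ r f, f ∉ q.asIdeal ∧ a0 * d.ι c f = d.ι c r) ∧
      (V.chart _ c q ∈ U1 η β → ∃ r f, f ∉ q.asIdeal ∧ b0 * d.ι c f = d.ι c r) := by
    intro c q hq
    exact ⟨fun h => a.2 ⟨hb0⟩ _ h (d.x0_specializes c q hq) c q rfl,
      fun h => b.2 ⟨hb1⟩ _ h (d.x0_specializes c q hq) c q rfl⟩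
  have hcov : ∀ z : V (JF (PowerSeries k)), z ∈ U0 τ η β ∨ z ∈ U1 η β := by
    intro z
    have : z ∈ U0 τ η β ⊔ U1 η β := by rw [cover τ u1 u2 u3]; trivial
    exact this
  have hglob : ∀ c (s t : Ch (JF (PowerSeries k)) c),
      (a0 - b0) * d.ι c s = d.ι c t → ∃ r, d.ι c r = a0 * d.ι c s := by
    intro c s t hst
    apply mem_range_of_local
    intro q hq
    rcases hcov (V.chart _ c q) with h | h
    · obtain ⟨r, f, hf, h1⟩ := (hloc c q hq).1 h
      exact ⟨r * s, f, hf, by rw [map_mul, ← h1]; ring⟩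
    · obtain ⟨r, f, hf, h1⟩ := (hloc c q hq).2 h
      refine ⟨r * s + t * f, f, hf, ?_⟩
      rw [map_add, map_mul, map_mul, ← h1, ← hst]; ring
  have hs0 : d.ι 0 (xc _ - algebraMap _ _ τ) = j (xB K) - jA j τ := by
    rw [map_sub, hιA, hι0, psi0_x]
  obtain ⟨r0, hr0⟩ := hglob 0 (xc _ - algebraMap _ _ τ) (-algebraMap _ _ τ') (by
    rw [hs0, map_neg, hιA, hrel])
  obtain ⟨r1, hr1⟩ := hglob 1 (gg τ) (-(algebraMap _ _ τ' * wc _)) (by
    rw [gg, map_sub, map_mul, map_one, map_neg, map_mul, hιA, hιA]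
    linear_combination (d.ι 1 (wc _)) * hrel - (a0 - b0) * hw)
  have hinf : ∀ r, d.ι 1 r ∈ InfReg j := by
    intro r
    obtain ⟨F, rfl⟩ := aeval_frac_surjective _ 1 r
    induction F using MvPolynomial.induction_on with
    | C a =>
      rw [MvPolynomial.aeval_C, hιA]
      refine ⟨0, algebraMap _ (BK K) a, ?_, by simp [jA]⟩
      have h1 : algebraMap _ (BK K) a = (algebraMap _ K a) • xB K ^ 0 := by
        rw [pow_zero, Algebra.smul_def, mul_one]; rfl
      rw [h1]
      exact Submodule.smul_mem _ _ (xpow_mem 0)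
    | add p q hp hq => rw [map_add, map_add]; exact add_mem hp hq
    | mul_X p c hp =>
      rw [map_mul, map_mul, MvPolynomial.aeval_X]
      refine mul_mem hp ?_
      fin_cases c
      · refine ⟨1, 1, WN_mono (Nat.zero_le 1) (by simpa using xpow_mem (K := K) 0), ?_⟩
        rw [pow_one, map_one, mul_comm]; exact hw
      · change d.ι 1 (frac _ 1 1) ∈ _
        rw [frac_self, map_one]; exact one_mem _
      · refine ⟨1, yB K, y_mem, ?_⟩
        rw [pow_one, mul_comm]; exact hv
  rw [hs0, hι0] at hr0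
  obtain ⟨p0, p1, hp⟩ := linear_of_infReg j hj (psi0 r0) _ (hinf r1) (by
    rw [hr1, hr0, gg, map_sub, map_mul, map_one, hιA]
    linear_combination (-(a0 * jA j τ)) * hw)
  -- evaluation at points of the generic fibre
  have hev : ∀ (γ : PowerSeries k) (hγ : γ ^ 4 = -1 - τ ^ 4),
      ((γ - η) * (γ - β) ≠ 0 → p0.eval (algebraMap _ K τ) +
        p1.eval (algebraMap _ K τ) * algebraMap _ K γ = 0) ∧
      (cof γ η * cof γ β ≠ 0 → p0.eval (algebraMap _ K τ) +
        p1.eval (algebraMap _ K τ) * algebraMap _ K γ = -algebraMap _ K τ') := by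
    intro γ hγ
    have hpt : 1 + algebraMap _ K τ ^ 4 + algebraMap _ K γ ^ 4 = 0 := by
      have := congrArg (algebraMap _ K) hγ
      simp only [map_pow, map_sub, map_neg, map_one] at this
      linear_combination this
    let ev : Ch (JF (PowerSeries k)) 0 →+* K :=
      (evB _ _ hpt).comp (psi0 (k := k) (K := K) : Ch (JF (PowerSeries k)) 0 →+* BK K)
    have ev_apply : ∀ r, ev r = evB _ _ hpt (psi0 r) := fun _ => rfl
    have evA : ∀ r, evB _ _ hpt (algebraMap (PowerSeries k) (BK K) r) = algebraMap _ K r :=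
      fun r => evB_algebraMap _ _ hpt _
    have evA' : ∀ r : PowerSeries k, ev (algebraMap _ _ r) = algebraMap _ K r := by
      intro r
      rw [ev_apply, AlgHom.commutes, evA]
    have evy : ev (yc _) = algebraMap _ K γ := by rw [ev_apply, psi0_y, evB_y]
    let q : PrimeSpectrum (Ch (JF (PowerSeries k)) 0) := ⟨RingHom.ker ev, RingHom.ker_isPrime ev⟩
    have hq : RingHom.ker (d.ι 0) ≤ q.asIdeal := by
      intro f hf
      rw [RingHom.mem_ker, hι0] at hf
      have : psi0 (K := K) f = 0 := hj (hf.trans (map_zero j).symm)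
      change ev f = 0
      rw [ev_apply, this, map_zero]
    have hval : evB _ _ hpt (psi0 r0) = p0.eval (algebraMap _ K τ) +
        p1.eval (algebraMap _ K τ) * algebraMap _ K γ := by
      rw [hp, map_add, map_mul, evB_of, evB_of, evB_y]
    constructor
    · intro hne
      have hmem : V.chart _ 0 q ∈ U0 τ η β := by
        refine Or.inr ((chart_mem_basicOpen _ _ _ _).2 ?_)
        intro h
        have h1 : ev (nn η β) = 0 := h
        rw [nn, map_mul, map_sub, map_sub, evy, evA', evA', ← map_sub, ← map_sub, ← map_mul] at h1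
        exact hne (hK (h1.trans (map_zero _).symm))
      obtain ⟨r, f, hf, h1⟩ := (hloc 0 q hq).1 hmem
      rw [hι0, hι0] at h1
      have h2 : psi0 (K := K) r0 * psi0 f =
          psi0 r * (xB K - algebraMap (PowerSeries k) (BK K) τ) := by
        apply hj
        rw [map_mul, map_mul, map_sub, hr0, ← h1]
        change _ = _ * (_ - jA j τ)
        ring
      have h3 := congrArg (evB _ _ hpt) h2
      rw [map_mul, map_mul, map_sub, evB_x, evA, sub_self, mul_zero, hval] at h3
      exact (mul_eq_zero.1 h3).resolve_right hf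
    · intro hne
      have hmem : V.chart _ 0 q ∈ U1 η β := by
        refine (chart_mem_basicOpen _ _ _ _).2 ?_
        intro h
        have h1 : ev (hh η β) = 0 := h
        rw [hh, map_mul, map_cof, map_cof, evy, evA', evA', ← map_cof, ← map_cof, ← map_mul] at h1
        exact hne (hK (h1.trans (map_zero _).symm))
      obtain ⟨r, f, hf, h1⟩ := (hloc 0 q hq).2 hmem
      rw [hι0, hι0] at h1
      have h2 : psi0 (K := K) r0 * psi0 f =
          psi0 r * (xB K - algebraMap (PowerSeries k) (BK K) τ) -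
            algebraMap (PowerSeries k) (BK K) τ' * psi0 f := by
        apply hj
        rw [map_sub, map_mul, map_mul, map_mul, map_sub, hr0, ← h1]
        change _ = _ * (_ - jA j τ) - jA j τ' * _
        linear_combination (j (psi0 f)) * hrel
      have h3 := congrArg (evB _ _ hpt) h2
      rw [map_sub, map_mul, map_mul, map_mul, map_sub, evB_x, evA, evA, sub_self, mul_zero,
        hval] at h3
      have hf' : evB _ _ hpt (psi0 f) ≠ 0 := hf
      apply mul_right_cancel₀ hf'
      rw [h3]; ring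
  have e1 := (hev (-β) (by rw [← hβ]; ring)).1 v1
  have e2 := (hev (η ^ 2 * β) (by
    rw [← hβ]; linear_combination (β ^ 4 * (η ^ 4 - 1)) * hη)).1 v2
  have e3 := (hev β hβ).2 (by
    have : cof β η = cof η β := by unfold cof; ring
    rw [this]
    exact (u2.mul u3).ne_zero)
  have e4 : p1.eval (algebraMap _ K τ) * algebraMap _ K (β * (1 + η ^ 2)) = 0 := by
    simp only [map_mul, map_add, map_one, map_neg, map_pow] at e1 e2 ⊢
    linear_combination e2 - e1
  have e5 : p1.eval (algebraMap _ K τ) = 0 :=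
    (mul_eq_zero.1 e4).resolve_right (fun h => v3 (hK (h.trans (map_zero _).symm)))
  rw [e5, zero_mul, add_zero] at e1 e3
  rw [e1] at e3
  apply hτ
  apply hK
  rw [map_zero]
  exact neg_eq_zero.1 e3.symm

end

end Pool.Agent.H961Z.KZ
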